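import Mathlib

namespace Pool.Agent.Lib.MP_e6e291_co

open Metric

/-- A finite set of pairs (centre, radius) is a packing if all radii are positive and the closed
balls have pairwise disjoint interiors. -/
def IsPacking {d : ℕ} (P : Finset (EuclideanSpace ℝ (Fin d) × ℝ)) : Prop :=
  (∀ a ∈ P, 0 < a.2) ∧ ∀ a ∈ P, ∀ b ∈ P, a ≠ b →
    Disjoint (interior (closedBall a.1 a.2)) (interior (closedBall b.1 b.2))

/-- The contact graph: two distinct balls are adjacent when they are tangent. -/
def contactGraph {d : ℕ} (P : Finset (EuclideanSpace ℝ (Fin d) × ℝ)) : SimpleGraph P :=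
  SimpleGraph.fromRel fun a b => dist a.1.1 b.1.1 = a.1.2 + b.1.2

end Pool.Agent.Lib.MP_e6e291_co
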