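import Pool.Agent.Lib.MP_e6e291_co.Upper

namespace Pool.Agent.Lib.MP_e6e291_co

open Finset Metric

def bv (c : Fin 8 → ℤ) : Fin 8 → ℤ :=
  ![c 0 + 2 * c 1 - 2 * c 2, -c 0 + 2 * c 1 + 2 * c 2 - 2 * c 3, -c 0 + 2 * c 3 - 2 * c 4,
    -c 0 + 2 * c 4 - 2 * c 5, -c 0 + 2 * c 5 - 2 * c 6, -c 0 + 2 * c 6 - 2 * c 7,
    -c 0 + 2 * c 7, c 0]

def qf (c : Fin 8 → ℤ) : ℤ :=
  c 0 * c 0 + c 1 * c 1 + c 2 * c 2 + c 3 * c 3 + c 4 * c 4 + c 5 * c 5 + c 6 * c 6 + c 7 * c 7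
    - (c 0 * c 2 + c 1 * c 3 + c 2 * c 3 + c 3 * c 4 + c 4 * c 5 + c 5 * c 6 + c 6 * c 7)

def hash (c : Fin 8 → ℤ) : ℤ :=
  c 0 + 13 * (c 1 + 13 * (c 2 + 13 * (c 3 + 13 * (c 4 + 13 * (c 5 + 13 * (c 6 + 13 * c 7))))))

def rl0 : List (List ℤ) := [
  [-2, -3, -4, -6, -5, -4, -3, -2], [-2, -3, -4, -6, -5, -4, -3, -1], [-2, -3, -4, -6, -5, -4, -2, -1],
  [-2, -3, -4, -6, -5, -3, -2, -1], [-2, -3, -4, -6, -4, -3, -2, -1], [-2, -3, -4, -5, -4, -3, -2, -1],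
  [-2, -2, -4, -5, -4, -3, -2, -1], [-2, -3, -3, -5, -4, -3, -2, -1], [-1, -3, -3, -5, -4, -3, -2, -1],
  [-2, -2, -3, -5, -4, -3, -2, -1], [-1, -2, -3, -5, -4, -3, -2, -1], [-2, -2, -3, -4, -4, -3, -2, -1],
  [-1, -2, -3, -4, -4, -3, -2, -1], [-1, -2, -2, -4, -4, -3, -2, -1], [-2, -2, -3, -4, -3, -3, -2, -1],
  [-1, -2, -3, -4, -3, -3, -2, -1], [-1, -2, -2, -4, -3, -3, -2, -1], [-1, -2, -2, -3, -3, -3, -2, -1],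
  [-1, -1, -2, -3, -3, -3, -2, -1], [-2, -2, -3, -4, -3, -2, -2, -1], [-1, -2, -3, -4, -3, -2, -2, -1],
  [-1, -2, -2, -4, -3, -2, -2, -1], [-1, -2, -2, -3, -3, -2, -2, -1], [-1, -1, -2, -3, -3, -2, -2, -1],
  [-1, -2, -2, -3, -2, -2, -2, -1], [-1, -1, -2, -3, -2, -2, -2, -1], [-1, -1, -2, -2, -2, -2, -2, -1],
  [-1, -1, -1, -2, -2, -2, -2, -1], [0, -1, -1, -2, -2, -2, -2, -1], [-2, -2, -3, -4, -3, -2, -1, -1]]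

def rl1 : List (List ℤ) := [
  [-1, -2, -3, -4, -3, -2, -1, -1], [-1, -2, -2, -4, -3, -2, -1, -1], [-1, -2, -2, -3, -3, -2, -1, -1],
  [-1, -1, -2, -3, -3, -2, -1, -1], [-1, -2, -2, -3, -2, -2, -1, -1], [-1, -1, -2, -3, -2, -2, -1, -1],
  [-1, -1, -2, -2, -2, -2, -1, -1], [-1, -1, -1, -2, -2, -2, -1, -1], [0, -1, -1, -2, -2, -2, -1, -1],
  [-1, -2, -2, -3, -2, -1, -1, -1], [-1, -1, -2, -3, -2, -1, -1, -1], [-1, -1, -2, -2, -2, -1, -1, -1],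
  [-1, -1, -1, -2, -2, -1, -1, -1], [0, -1, -1, -2, -2, -1, -1, -1], [-1, -1, -2, -2, -1, -1, -1, -1],
  [-1, -1, -1, -2, -1, -1, -1, -1], [0, -1, -1, -2, -1, -1, -1, -1], [-1, -1, -1, -1, -1, -1, -1, -1],
  [0, -1, -1, -1, -1, -1, -1, -1], [-1, 0, -1, -1, -1, -1, -1, -1], [0, 0, -1, -1, -1, -1, -1, -1],
  [0, -1, 0, -1, -1, -1, -1, -1], [0, 0, 0, -1, -1, -1, -1, -1], [0, 0, 0, 0, -1, -1, -1, -1],
  [0, 0, 0, 0, 0, -1, -1, -1], [0, 0, 0, 0, 0, 0, -1, -1], [0, 0, 0, 0, 0, 0, 0, -1],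
  [-2, -2, -3, -4, -3, -2, -1, 0], [-1, -2, -3, -4, -3, -2, -1, 0], [-1, -2, -2, -4, -3, -2, -1, 0]]

def rl2 : List (List ℤ) := [
  [-1, -2, -2, -3, -3, -2, -1, 0], [-1, -1, -2, -3, -3, -2, -1, 0], [-1, -2, -2, -3, -2, -2, -1, 0],
  [-1, -1, -2, -3, -2, -2, -1, 0], [-1, -1, -2, -2, -2, -2, -1, 0], [-1, -1, -1, -2, -2, -2, -1, 0],
  [0, -1, -1, -2, -2, -2, -1, 0], [-1, -2, -2, -3, -2, -1, -1, 0], [-1, -1, -2, -3, -2, -1, -1, 0],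
  [-1, -1, -2, -2, -2, -1, -1, 0], [-1, -1, -1, -2, -2, -1, -1, 0], [0, -1, -1, -2, -2, -1, -1, 0],
  [-1, -1, -2, -2, -1, -1, -1, 0], [-1, -1, -1, -2, -1, -1, -1, 0], [0, -1, -1, -2, -1, -1, -1, 0],
  [-1, -1, -1, -1, -1, -1, -1, 0], [0, -1, -1, -1, -1, -1, -1, 0], [-1, 0, -1, -1, -1, -1, -1, 0],
  [0, 0, -1, -1, -1, -1, -1, 0], [0, -1, 0, -1, -1, -1, -1, 0], [0, 0, 0, -1, -1, -1, -1, 0],
  [0, 0, 0, 0, -1, -1, -1, 0], [0, 0, 0, 0, 0, -1, -1, 0], [0, 0, 0, 0, 0, 0, -1, 0],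
  [-1, -2, -2, -3, -2, -1, 0, 0], [-1, -1, -2, -3, -2, -1, 0, 0], [-1, -1, -2, -2, -2, -1, 0, 0],
  [-1, -1, -1, -2, -2, -1, 0, 0], [0, -1, -1, -2, -2, -1, 0, 0], [-1, -1, -2, -2, -1, -1, 0, 0]]

def rl3 : List (List ℤ) := [
  [-1, -1, -1, -2, -1, -1, 0, 0], [0, -1, -1, -2, -1, -1, 0, 0], [-1, -1, -1, -1, -1, -1, 0, 0],
  [0, -1, -1, -1, -1, -1, 0, 0], [-1, 0, -1, -1, -1, -1, 0, 0], [0, 0, -1, -1, -1, -1, 0, 0],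
  [0, -1, 0, -1, -1, -1, 0, 0], [0, 0, 0, -1, -1, -1, 0, 0], [0, 0, 0, 0, -1, -1, 0, 0],
  [0, 0, 0, 0, 0, -1, 0, 0], [-1, -1, -2, -2, -1, 0, 0, 0], [-1, -1, -1, -2, -1, 0, 0, 0],
  [0, -1, -1, -2, -1, 0, 0, 0], [-1, -1, -1, -1, -1, 0, 0, 0], [0, -1, -1, -1, -1, 0, 0, 0],
  [-1, 0, -1, -1, -1, 0, 0, 0], [0, 0, -1, -1, -1, 0, 0, 0], [0, -1, 0, -1, -1, 0, 0, 0],
  [0, 0, 0, -1, -1, 0, 0, 0], [0, 0, 0, 0, -1, 0, 0, 0], [-1, -1, -1, -1, 0, 0, 0, 0],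
  [0, -1, -1, -1, 0, 0, 0, 0], [-1, 0, -1, -1, 0, 0, 0, 0], [0, 0, -1, -1, 0, 0, 0, 0],
  [0, -1, 0, -1, 0, 0, 0, 0], [0, 0, 0, -1, 0, 0, 0, 0], [-1, 0, -1, 0, 0, 0, 0, 0],
  [0, 0, -1, 0, 0, 0, 0, 0], [0, -1, 0, 0, 0, 0, 0, 0], [-1, 0, 0, 0, 0, 0, 0, 0]]

def rl4 : List (List ℤ) := [
  [1, 0, 0, 0, 0, 0, 0, 0], [0, 1, 0, 0, 0, 0, 0, 0], [0, 0, 1, 0, 0, 0, 0, 0],
  [1, 0, 1, 0, 0, 0, 0, 0], [0, 0, 0, 1, 0, 0, 0, 0], [0, 1, 0, 1, 0, 0, 0, 0],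
  [0, 0, 1, 1, 0, 0, 0, 0], [1, 0, 1, 1, 0, 0, 0, 0], [0, 1, 1, 1, 0, 0, 0, 0],
  [1, 1, 1, 1, 0, 0, 0, 0], [0, 0, 0, 0, 1, 0, 0, 0], [0, 0, 0, 1, 1, 0, 0, 0],
  [0, 1, 0, 1, 1, 0, 0, 0], [0, 0, 1, 1, 1, 0, 0, 0], [1, 0, 1, 1, 1, 0, 0, 0],
  [0, 1, 1, 1, 1, 0, 0, 0], [1, 1, 1, 1, 1, 0, 0, 0], [0, 1, 1, 2, 1, 0, 0, 0],
  [1, 1, 1, 2, 1, 0, 0, 0], [1, 1, 2, 2, 1, 0, 0, 0], [0, 0, 0, 0, 0, 1, 0, 0],
  [0, 0, 0, 0, 1, 1, 0, 0], [0, 0, 0, 1, 1, 1, 0, 0], [0, 1, 0, 1, 1, 1, 0, 0],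
  [0, 0, 1, 1, 1, 1, 0, 0], [1, 0, 1, 1, 1, 1, 0, 0], [0, 1, 1, 1, 1, 1, 0, 0],
  [1, 1, 1, 1, 1, 1, 0, 0], [0, 1, 1, 2, 1, 1, 0, 0], [1, 1, 1, 2, 1, 1, 0, 0]]

def rl5 : List (List ℤ) := [
  [1, 1, 2, 2, 1, 1, 0, 0], [0, 1, 1, 2, 2, 1, 0, 0], [1, 1, 1, 2, 2, 1, 0, 0],
  [1, 1, 2, 2, 2, 1, 0, 0], [1, 1, 2, 3, 2, 1, 0, 0], [1, 2, 2, 3, 2, 1, 0, 0],
  [0, 0, 0, 0, 0, 0, 1, 0], [0, 0, 0, 0, 0, 1, 1, 0], [0, 0, 0, 0, 1, 1, 1, 0],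
  [0, 0, 0, 1, 1, 1, 1, 0], [0, 1, 0, 1, 1, 1, 1, 0], [0, 0, 1, 1, 1, 1, 1, 0],
  [1, 0, 1, 1, 1, 1, 1, 0], [0, 1, 1, 1, 1, 1, 1, 0], [1, 1, 1, 1, 1, 1, 1, 0],
  [0, 1, 1, 2, 1, 1, 1, 0], [1, 1, 1, 2, 1, 1, 1, 0], [1, 1, 2, 2, 1, 1, 1, 0],
  [0, 1, 1, 2, 2, 1, 1, 0], [1, 1, 1, 2, 2, 1, 1, 0], [1, 1, 2, 2, 2, 1, 1, 0],
  [1, 1, 2, 3, 2, 1, 1, 0], [1, 2, 2, 3, 2, 1, 1, 0], [0, 1, 1, 2, 2, 2, 1, 0],
  [1, 1, 1, 2, 2, 2, 1, 0], [1, 1, 2, 2, 2, 2, 1, 0], [1, 1, 2, 3, 2, 2, 1, 0],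
  [1, 2, 2, 3, 2, 2, 1, 0], [1, 1, 2, 3, 3, 2, 1, 0], [1, 2, 2, 3, 3, 2, 1, 0]]

def rl6 : List (List ℤ) := [
  [1, 2, 2, 4, 3, 2, 1, 0], [1, 2, 3, 4, 3, 2, 1, 0], [2, 2, 3, 4, 3, 2, 1, 0],
  [0, 0, 0, 0, 0, 0, 0, 1], [0, 0, 0, 0, 0, 0, 1, 1], [0, 0, 0, 0, 0, 1, 1, 1],
  [0, 0, 0, 0, 1, 1, 1, 1], [0, 0, 0, 1, 1, 1, 1, 1], [0, 1, 0, 1, 1, 1, 1, 1],
  [0, 0, 1, 1, 1, 1, 1, 1], [1, 0, 1, 1, 1, 1, 1, 1], [0, 1, 1, 1, 1, 1, 1, 1],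
  [1, 1, 1, 1, 1, 1, 1, 1], [0, 1, 1, 2, 1, 1, 1, 1], [1, 1, 1, 2, 1, 1, 1, 1],
  [1, 1, 2, 2, 1, 1, 1, 1], [0, 1, 1, 2, 2, 1, 1, 1], [1, 1, 1, 2, 2, 1, 1, 1],
  [1, 1, 2, 2, 2, 1, 1, 1], [1, 1, 2, 3, 2, 1, 1, 1], [1, 2, 2, 3, 2, 1, 1, 1],
  [0, 1, 1, 2, 2, 2, 1, 1], [1, 1, 1, 2, 2, 2, 1, 1], [1, 1, 2, 2, 2, 2, 1, 1],
  [1, 1, 2, 3, 2, 2, 1, 1], [1, 2, 2, 3, 2, 2, 1, 1], [1, 1, 2, 3, 3, 2, 1, 1],
  [1, 2, 2, 3, 3, 2, 1, 1], [1, 2, 2, 4, 3, 2, 1, 1], [1, 2, 3, 4, 3, 2, 1, 1]]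

def rl7 : List (List ℤ) := [
  [2, 2, 3, 4, 3, 2, 1, 1], [0, 1, 1, 2, 2, 2, 2, 1], [1, 1, 1, 2, 2, 2, 2, 1],
  [1, 1, 2, 2, 2, 2, 2, 1], [1, 1, 2, 3, 2, 2, 2, 1], [1, 2, 2, 3, 2, 2, 2, 1],
  [1, 1, 2, 3, 3, 2, 2, 1], [1, 2, 2, 3, 3, 2, 2, 1], [1, 2, 2, 4, 3, 2, 2, 1],
  [1, 2, 3, 4, 3, 2, 2, 1], [2, 2, 3, 4, 3, 2, 2, 1], [1, 1, 2, 3, 3, 3, 2, 1],
  [1, 2, 2, 3, 3, 3, 2, 1], [1, 2, 2, 4, 3, 3, 2, 1], [1, 2, 3, 4, 3, 3, 2, 1],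
  [2, 2, 3, 4, 3, 3, 2, 1], [1, 2, 2, 4, 4, 3, 2, 1], [1, 2, 3, 4, 4, 3, 2, 1],
  [2, 2, 3, 4, 4, 3, 2, 1], [1, 2, 3, 5, 4, 3, 2, 1], [2, 2, 3, 5, 4, 3, 2, 1],
  [1, 3, 3, 5, 4, 3, 2, 1], [2, 3, 3, 5, 4, 3, 2, 1], [2, 2, 4, 5, 4, 3, 2, 1],
  [2, 3, 4, 5, 4, 3, 2, 1], [2, 3, 4, 6, 4, 3, 2, 1], [2, 3, 4, 6, 5, 3, 2, 1],
  [2, 3, 4, 6, 5, 4, 2, 1], [2, 3, 4, 6, 5, 4, 3, 1], [2, 3, 4, 6, 5, 4, 3, 2]]

def rootsL : List (List ℤ) := rl0 ++ rl1 ++ rl2 ++ rl3 ++ rl4 ++ rl5 ++ rl6 ++ rl7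

def roots : List (Fin 8 → ℤ) := rootsL.map fun l i => l.getD i.1 0

theorem roots_chain : (roots.map hash).IsChain (· < ·) := by decide +kernel

theorem roots_nodup : roots.Nodup :=
  List.Nodup.of_map hash (List.Pairwise.nodup (List.isChain_iff_pairwise.mp roots_chain))

theorem roots_len : roots.length = 240 := by decide +kernel

theorem roots_prop : ∀ r ∈ roots, qf r = 1 ∧ ∀ i, -6 ≤ r i ∧ r i ≤ 6 := by decide +kernel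

theorem roots_card : roots.toFinset.card = 240 := by
  rw [List.toFinset_card_of_nodup roots_nodup, roots_len]

theorem qf_pos {c : Fin 8 → ℤ} (hc : c ≠ 0) : 1 ≤ qf c := by
  by_contra h
  have e : ∑ i, bv c i ^ 2 = 8 * qf c := by
    simp [Fin.sum_univ_eight, bv, qf]; ring
  have h0 : ∑ i, bv c i ^ 2 = 0 :=
    le_antisymm (by omega) (sum_nonneg fun i _ => sq_nonneg _)
  rw [sum_eq_zero_iff_of_nonneg fun i _ => sq_nonneg _] at h0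
  have h1 : ∀ i, bv c i = 0 := fun i => pow_eq_zero_iff (two_ne_zero) |>.mp (h0 i (mem_univ i))
  have a0 := h1 0; have a1 := h1 1; have a2 := h1 2; have a3 := h1 3
  have a4 := h1 4; have a5 := h1 5; have a6 := h1 6; have a7 := h1 7
  simp [bv] at a0 a1 a2 a3 a4 a5 a6 a7
  apply hc
  funext i
  fin_cases i <;> simp <;> omega

noncomputable def emb (c : Fin 8 → ℤ) : EuclideanSpace ℝ (Fin 8) :=
  WithLp.toLp 2 fun i => (bv c i : ℝ) / √2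

theorem dist_emb_sq (a b : Fin 8 → ℤ) : dist (emb a) (emb b) ^ 2 = 4 * (qf (a - b) : ℝ) := by
  rw [EuclideanSpace.dist_eq, Real.sq_sqrt (sum_nonneg fun i _ => sq_nonneg _)]
  have : ∀ i, dist (emb a i) (emb b i) ^ 2 = ((bv a i : ℝ) - bv b i) ^ 2 / 2 := fun i => by
    simp only [emb, Real.dist_eq, sq_abs]
    rw [← sub_div, div_pow, Real.sq_sqrt (by norm_num)]
  simp only [this]
  simp [Fin.sum_univ_eight, bv, qf]; ring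

theorem dist_emb_ge {a b : Fin 8 → ℤ} (h : a ≠ b) : 1 + 1 ≤ dist (emb a) (emb b) := by
  have h1 : (1 : ℝ) ≤ qf (a - b) := by exact_mod_cast qf_pos (sub_ne_zero.mpr h)
  have h2 := dist_emb_sq a b
  nlinarith [dist_nonneg (x := emb a) (y := emb b)]

theorem dist_emb_eq {a b : Fin 8 → ℤ} (h : qf (a - b) = 1) : dist (emb a) (emb b) = 2 := by
  have h2 := dist_emb_sq a b
  rw [h] at h2
  push_cast at h2
  nlinarith [dist_nonneg (x := emb a) (y := emb b)]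

theorem emb_inj : Function.Injective emb := fun a b h => by
  by_contra hab
  have := dist_emb_ge hab
  rw [h, dist_self] at this
  norm_num at this

theorem emb_zero : emb 0 = 0 := by
  ext i
  fin_cases i <;> simp [emb, bv]

theorem kiss_lower : ∃ C : Finset (EuclideanSpace ℝ (Fin 8)), C.card = 240 ∧
    (∀ c ∈ C, dist c 0 = 2) ∧ ∀ a ∈ C, ∀ b ∈ C, a ≠ b →
      Disjoint (interior (closedBall a 1)) (interior (closedBall b 1)) := by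
  classical
  refine ⟨roots.toFinset.image emb, ?_, ?_, ?_⟩
  · rw [card_image_of_injective _ emb_inj, roots_card]
  · intro c hc
    obtain ⟨r, hr, rfl⟩ := mem_image.mp hc
    rw [← emb_zero]
    exact dist_emb_eq (by rw [sub_zero]; exact (roots_prop r (List.mem_toFinset.mp hr)).1)
  · intro a ha b hb hab
    obtain ⟨r, -, rfl⟩ := mem_image.mp ha
    obtain ⟨s, -, rfl⟩ := mem_image.mp hb
    exact (disj_iff one_pos one_pos).mpr (dist_emb_ge fun h => hab (by rw [h]))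

noncomputable def box (a b : ℤ) : Finset (Fin 8 → ℤ) := Fintype.piFinset fun _ => Ico a b

theorem card_box (a : ℤ) (n : ℕ) : (box a (a + n)).card = n ^ 8 := by
  simp [box]

open Classical in
noncomputable def pack (n : ℕ) : Finset (EuclideanSpace ℝ (Fin 8) × ℝ) :=
  (box 0 (0 + (n + 12 : ℕ))).image fun c => (emb c, 1)

theorem card_pack (n : ℕ) : (pack n).card = (n + 12) ^ 8 := by
  classical
  rw [pack, card_image_of_injective _ fun a b h => emb_inj (Prod.ext_iff.mp h).1, card_box]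

theorem pack_isPacking (n : ℕ) : IsPacking (pack n) := by
  classical
  constructor
  · intro a ha
    obtain ⟨r, -, rfl⟩ := mem_image.mp ha
    exact one_pos
  · intro a ha b hb hab
    obtain ⟨r, -, rfl⟩ := mem_image.mp ha
    obtain ⟨s, -, rfl⟩ := mem_image.mp hb
    exact (disj_iff one_pos one_pos).mpr (dist_emb_ge fun h => hab (by rw [h]))

theorem mem_pack {n : ℕ} {c : Fin 8 → ℤ} (h : ∀ i, 0 ≤ c i ∧ c i < n + 12) :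
    (emb c, (1 : ℝ)) ∈ pack n := by
  classical
  refine mem_image.mpr ⟨c, ?_, rfl⟩
  simp only [box, Fintype.mem_piFinset, mem_Ico]
  intro i
  have := h i
  push_cast
  omega

theorem pack_edges (n : ℕ) : n ^ 8 * 240 ≤ 2 * (contactGraph (pack n)).edgeSet.ncard := by
  classical
  set G := contactGraph (pack n) with hG
  have e1 : G.edgeSet.ncard = G.edgeFinset.card := by
    rw [← SimpleGraph.coe_edgeFinset, Set.ncard_coe_finset]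
  rw [e1, ← SimpleGraph.dart_card_eq_twice_card_edges]
  have hb : ∀ c : box 6 (6 + n), ∀ i, 6 ≤ c.1 i ∧ c.1 i < 6 + n := fun c => by
    have := c.2
    simpa only [box, Fintype.mem_piFinset, mem_Ico] using this
  have hr : ∀ r : roots.toFinset, qf r.1 = 1 ∧ ∀ i, -6 ≤ r.1 i ∧ r.1 i ≤ 6 := fun r =>
    roots_prop r.1 (List.mem_toFinset.mp r.2)
  have m1 : ∀ c : box 6 (6 + n), (emb c.1, (1 : ℝ)) ∈ pack n := fun c =>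
    mem_pack fun i => by have := hb c i; omega
  have m2 : ∀ (c : box 6 (6 + n)) (r : roots.toFinset), (emb (c.1 - r.1), (1 : ℝ)) ∈ pack n :=
    fun c r => mem_pack fun i => by
      have := hb c i; have := (hr r).2 i; simp only [Pi.sub_apply]; omega
  have hd : ∀ (c : box 6 (6 + n)) (r : roots.toFinset), dist (emb c.1) (emb (c.1 - r.1)) = 2 :=
    fun c r => dist_emb_eq (by rw [sub_sub_cancel]; exact (hr r).1)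
  let f : box 6 (6 + n) × roots.toFinset → G.Dart := fun p =>
    ⟨(⟨_, m1 p.1⟩, ⟨_, m2 p.1 p.2⟩), adj_iff.mpr ⟨fun h => by
      have h1 : emb p.1.1 = emb (p.1.1 - p.2.1) := (Prod.ext_iff.mp (Subtype.ext_iff.mp h)).1
      have h2 := hd p.1 p.2
      rw [← h1, dist_self] at h2
      norm_num at h2, by
      have := hd p.1 p.2
      simp only [this]; norm_num⟩⟩
  have hf : Function.Injective f := by
    intro p q h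
    have h0 := congrArg SimpleGraph.Dart.toProd h
    have h1 : emb p.1.1 = emb q.1.1 :=
      (Prod.ext_iff.mp (Subtype.ext_iff.mp (Prod.ext_iff.mp h0).1)).1
    have h2 : emb (p.1.1 - p.2.1) = emb (q.1.1 - q.2.1) :=
      (Prod.ext_iff.mp (Subtype.ext_iff.mp (Prod.ext_iff.mp h0).2)).1
    have h3 := emb_inj h1
    have h4 := emb_inj h2
    rw [h3] at h4
    exact Prod.ext (Subtype.ext h3) (Subtype.ext (sub_right_injective h4))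
  have := Fintype.card_le_of_injective f hf
  rwa [Fintype.card_prod, Fintype.card_coe, Fintype.card_coe, card_box, roots_card] at this

theorem kappa_isLUB : IsLUB {x : ℝ | ∃ P : Finset (EuclideanSpace ℝ (Fin 8) × ℝ),
    P.Nonempty ∧ IsPacking P ∧ x = 2 * ((contactGraph P).edgeSet.ncard : ℝ) / P.card} 240 := by
  constructor
  · rintro x ⟨P, hne, hP, rfl⟩
    have : (0 : ℝ) < P.card := by exact_mod_cast hne.card_pos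
    rw [div_le_iff₀ this]
    exact upper hP
  · intro b hb
    have h1 : ∀ n : ℕ, 240 * ((n : ℝ) / (n + 12)) ^ 8 ≤ b := fun n => by
      have hc := card_pack n
      have hpos : 0 < (pack n).card := by rw [hc]; positivity
      refine le_trans ?_ (hb ⟨pack n, card_pos.mp hpos, pack_isPacking n, rfl⟩)
      have h2 : ((n : ℝ)) ^ 8 * 240 ≤ 2 * ((contactGraph (pack n)).edgeSet.ncard : ℝ) := by
        exact_mod_cast pack_edges n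
      rw [hc, div_pow]
      push_cast
      rw [← mul_div_assoc]
      exact div_le_div_of_nonneg_right (by linarith) (by positivity)
    have h2 : Filter.Tendsto (fun n : ℕ => 240 * ((n : ℝ) / (n + 12)) ^ 8) Filter.atTop
        (nhds (240 * 1 ^ 8)) :=
      ((tendsto_natCast_div_add_atTop (12 : ℝ)).pow 8).const_mul 240
    have := le_of_tendsto' h2 h1
    linarith

end Pool.Agent.Lib.MP_e6e291_co
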