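import Pool.Agent.Lib.MP_e6e291_co.PK

set_option linter.unusedVariables false
set_option linter.unusedSimpArgs false

namespace Pool.Agent.Lib.MP_e6e291_co

variable {ι : Type*} {S : Finset ι}

noncomputable def h2_0 (s p : ℝ) : ℝ := (1 : ℝ)
noncomputable def h2_1 (s p : ℝ) : ℝ := s
noncomputable def h2_2 (s p : ℝ) : ℝ := s^2 + (-1/2 : ℝ) * p
noncomputable def h2_3 (s p : ℝ) : ℝ := s^3 + (-3/4 : ℝ) * s * p
noncomputable def h2_4 (s p : ℝ) : ℝ := s^4 + (-1 : ℝ) * s^2 * p + (1/8 : ℝ) * p^2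
noncomputable def h2_5 (s p : ℝ) : ℝ := s^5 + (-5/4 : ℝ) * s^3 * p + (5/16 : ℝ) * s * p^2
noncomputable def h2_6 (s p : ℝ) : ℝ := s^6 + (-3/2 : ℝ) * s^4 * p + (9/16 : ℝ) * s^2 * p^2 + (-1/32 : ℝ) * p^3
noncomputable def h2_7 (s p : ℝ) : ℝ := s^7 + (-7/4 : ℝ) * s^5 * p + (7/8 : ℝ) * s^3 * p^2 + (-7/64 : ℝ) * s * p^3
noncomputable def h2_8 (s p : ℝ) : ℝ := s^8 + (-2 : ℝ) * s^6 * p + (5/4 : ℝ) * s^4 * p^2 + (-1/4 : ℝ) * s^2 * p^3 + (1/128 : ℝ) * p^4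
structure G2 (S : Finset ι) (s : ι → ι → ℝ) : Prop where
  p0 : PK S fun i j => h2_0 (s i j) (s i i * s j j)
  p1 : PK S fun i j => h2_1 (s i j) (s i i * s j j)
  p2 : PK S fun i j => h2_2 (s i j) (s i i * s j j)
  p3 : PK S fun i j => h2_3 (s i j) (s i i * s j j)
  p4 : PK S fun i j => h2_4 (s i j) (s i i * s j j)
  p5 : PK S fun i j => h2_5 (s i j) (s i i * s j j)
  p6 : PK S fun i j => h2_6 (s i j) (s i i * s j j)
  p7 : PK S fun i j => h2_7 (s i j) (s i i * s j j)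
  p8 : PK S fun i j => h2_8 (s i j) (s i i * s j j)

noncomputable def h3_0 (s p : ℝ) : ℝ := (1 : ℝ)
noncomputable def h3_1 (s p : ℝ) : ℝ := s
noncomputable def h3_2 (s p : ℝ) : ℝ := s^2 + (-1/3 : ℝ) * p
noncomputable def h3_3 (s p : ℝ) : ℝ := s^3 + (-3/5 : ℝ) * s * p
noncomputable def h3_4 (s p : ℝ) : ℝ := s^4 + (-6/7 : ℝ) * s^2 * p + (3/35 : ℝ) * p^2
noncomputable def h3_5 (s p : ℝ) : ℝ := s^5 + (-10/9 : ℝ) * s^3 * p + (5/21 : ℝ) * s * p^2
noncomputable def h3_6 (s p : ℝ) : ℝ := s^6 + (-15/11 : ℝ) * s^4 * p + (5/11 : ℝ) * s^2 * p^2 + (-5/231 : ℝ) * p^3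
noncomputable def h3_7 (s p : ℝ) : ℝ := s^7 + (-21/13 : ℝ) * s^5 * p + (105/143 : ℝ) * s^3 * p^2 + (-35/429 : ℝ) * s * p^3
noncomputable def h3_8 (s p : ℝ) : ℝ := s^8 + (-28/15 : ℝ) * s^6 * p + (14/13 : ℝ) * s^4 * p^2 + (-28/143 : ℝ) * s^2 * p^3 + (7/1287 : ℝ) * p^4
structure G3 (S : Finset ι) (s : ι → ι → ℝ) : Prop where
  p0 : PK S fun i j => h3_0 (s i j) (s i i * s j j)
  p1 : PK S fun i j => h3_1 (s i j) (s i i * s j j)
  p2 : PK S fun i j => h3_2 (s i j) (s i i * s j j)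
  p3 : PK S fun i j => h3_3 (s i j) (s i i * s j j)
  p4 : PK S fun i j => h3_4 (s i j) (s i i * s j j)
  p5 : PK S fun i j => h3_5 (s i j) (s i i * s j j)
  p6 : PK S fun i j => h3_6 (s i j) (s i i * s j j)
  p7 : PK S fun i j => h3_7 (s i j) (s i i * s j j)
  p8 : PK S fun i j => h3_8 (s i j) (s i i * s j j)

noncomputable def h4_0 (s p : ℝ) : ℝ := (1 : ℝ)
noncomputable def h4_1 (s p : ℝ) : ℝ := s
noncomputable def h4_2 (s p : ℝ) : ℝ := s^2 + (-1/4 : ℝ) * p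
noncomputable def h4_3 (s p : ℝ) : ℝ := s^3 + (-1/2 : ℝ) * s * p
noncomputable def h4_4 (s p : ℝ) : ℝ := s^4 + (-3/4 : ℝ) * s^2 * p + (1/16 : ℝ) * p^2
noncomputable def h4_5 (s p : ℝ) : ℝ := s^5 + (-1 : ℝ) * s^3 * p + (3/16 : ℝ) * s * p^2
noncomputable def h4_6 (s p : ℝ) : ℝ := s^6 + (-5/4 : ℝ) * s^4 * p + (3/8 : ℝ) * s^2 * p^2 + (-1/64 : ℝ) * p^3
noncomputable def h4_7 (s p : ℝ) : ℝ := s^7 + (-3/2 : ℝ) * s^5 * p + (5/8 : ℝ) * s^3 * p^2 + (-1/16 : ℝ) * s * p^3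
noncomputable def h4_8 (s p : ℝ) : ℝ := s^8 + (-7/4 : ℝ) * s^6 * p + (15/16 : ℝ) * s^4 * p^2 + (-5/32 : ℝ) * s^2 * p^3 + (1/256 : ℝ) * p^4
structure G4 (S : Finset ι) (s : ι → ι → ℝ) : Prop where
  p0 : PK S fun i j => h4_0 (s i j) (s i i * s j j)
  p1 : PK S fun i j => h4_1 (s i j) (s i i * s j j)
  p2 : PK S fun i j => h4_2 (s i j) (s i i * s j j)
  p3 : PK S fun i j => h4_3 (s i j) (s i i * s j j)
  p4 : PK S fun i j => h4_4 (s i j) (s i i * s j j)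
  p5 : PK S fun i j => h4_5 (s i j) (s i i * s j j)
  p6 : PK S fun i j => h4_6 (s i j) (s i i * s j j)
  p7 : PK S fun i j => h4_7 (s i j) (s i i * s j j)
  p8 : PK S fun i j => h4_8 (s i j) (s i i * s j j)

noncomputable def h5_0 (s p : ℝ) : ℝ := (1 : ℝ)
noncomputable def h5_1 (s p : ℝ) : ℝ := s
noncomputable def h5_2 (s p : ℝ) : ℝ := s^2 + (-1/5 : ℝ) * p
noncomputable def h5_3 (s p : ℝ) : ℝ := s^3 + (-3/7 : ℝ) * s * p
noncomputable def h5_4 (s p : ℝ) : ℝ := s^4 + (-2/3 : ℝ) * s^2 * p + (1/21 : ℝ) * p^2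
noncomputable def h5_5 (s p : ℝ) : ℝ := s^5 + (-10/11 : ℝ) * s^3 * p + (5/33 : ℝ) * s * p^2
noncomputable def h5_6 (s p : ℝ) : ℝ := s^6 + (-15/13 : ℝ) * s^4 * p + (45/143 : ℝ) * s^2 * p^2 + (-5/429 : ℝ) * p^3
noncomputable def h5_7 (s p : ℝ) : ℝ := s^7 + (-7/5 : ℝ) * s^5 * p + (7/13 : ℝ) * s^3 * p^2 + (-7/143 : ℝ) * s * p^3
noncomputable def h5_8 (s p : ℝ) : ℝ := s^8 + (-28/17 : ℝ) * s^6 * p + (14/17 : ℝ) * s^4 * p^2 + (-28/221 : ℝ) * s^2 * p^3 + (7/2431 : ℝ) * p^4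
structure G5 (S : Finset ι) (s : ι → ι → ℝ) : Prop where
  p0 : PK S fun i j => h5_0 (s i j) (s i i * s j j)
  p1 : PK S fun i j => h5_1 (s i j) (s i i * s j j)
  p2 : PK S fun i j => h5_2 (s i j) (s i i * s j j)
  p3 : PK S fun i j => h5_3 (s i j) (s i i * s j j)
  p4 : PK S fun i j => h5_4 (s i j) (s i i * s j j)
  p5 : PK S fun i j => h5_5 (s i j) (s i i * s j j)
  p6 : PK S fun i j => h5_6 (s i j) (s i i * s j j)
  p7 : PK S fun i j => h5_7 (s i j) (s i i * s j j)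
  p8 : PK S fun i j => h5_8 (s i j) (s i i * s j j)

noncomputable def h6_0 (s p : ℝ) : ℝ := (1 : ℝ)
noncomputable def h6_1 (s p : ℝ) : ℝ := s
noncomputable def h6_2 (s p : ℝ) : ℝ := s^2 + (-1/6 : ℝ) * p
noncomputable def h6_3 (s p : ℝ) : ℝ := s^3 + (-3/8 : ℝ) * s * p
noncomputable def h6_4 (s p : ℝ) : ℝ := s^4 + (-3/5 : ℝ) * s^2 * p + (3/80 : ℝ) * p^2
noncomputable def h6_5 (s p : ℝ) : ℝ := s^5 + (-5/6 : ℝ) * s^3 * p + (1/8 : ℝ) * s * p^2
noncomputable def h6_6 (s p : ℝ) : ℝ := s^6 + (-15/14 : ℝ) * s^4 * p + (15/56 : ℝ) * s^2 * p^2 + (-1/112 : ℝ) * p^3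
noncomputable def h6_7 (s p : ℝ) : ℝ := s^7 + (-21/16 : ℝ) * s^5 * p + (15/32 : ℝ) * s^3 * p^2 + (-5/128 : ℝ) * s * p^3
noncomputable def h6_8 (s p : ℝ) : ℝ := s^8 + (-14/9 : ℝ) * s^6 * p + (35/48 : ℝ) * s^4 * p^2 + (-5/48 : ℝ) * s^2 * p^3 + (5/2304 : ℝ) * p^4
structure G6 (S : Finset ι) (s : ι → ι → ℝ) : Prop where
  p0 : PK S fun i j => h6_0 (s i j) (s i i * s j j)
  p1 : PK S fun i j => h6_1 (s i j) (s i i * s j j)
  p2 : PK S fun i j => h6_2 (s i j) (s i i * s j j)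
  p3 : PK S fun i j => h6_3 (s i j) (s i i * s j j)
  p4 : PK S fun i j => h6_4 (s i j) (s i i * s j j)
  p5 : PK S fun i j => h6_5 (s i j) (s i i * s j j)
  p6 : PK S fun i j => h6_6 (s i j) (s i i * s j j)
  p7 : PK S fun i j => h6_7 (s i j) (s i i * s j j)
  p8 : PK S fun i j => h6_8 (s i j) (s i i * s j j)

noncomputable def h7_0 (s p : ℝ) : ℝ := (1 : ℝ)
noncomputable def h7_1 (s p : ℝ) : ℝ := s
noncomputable def h7_2 (s p : ℝ) : ℝ := s^2 + (-1/7 : ℝ) * p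
noncomputable def h7_3 (s p : ℝ) : ℝ := s^3 + (-1/3 : ℝ) * s * p
noncomputable def h7_4 (s p : ℝ) : ℝ := s^4 + (-6/11 : ℝ) * s^2 * p + (1/33 : ℝ) * p^2
noncomputable def h7_5 (s p : ℝ) : ℝ := s^5 + (-10/13 : ℝ) * s^3 * p + (15/143 : ℝ) * s * p^2
noncomputable def h7_6 (s p : ℝ) : ℝ := s^6 + (-1 : ℝ) * s^4 * p + (3/13 : ℝ) * s^2 * p^2 + (-1/143 : ℝ) * p^3
noncomputable def h7_7 (s p : ℝ) : ℝ := s^7 + (-21/17 : ℝ) * s^5 * p + (7/17 : ℝ) * s^3 * p^2 + (-7/221 : ℝ) * s * p^3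
noncomputable def h7_8 (s p : ℝ) : ℝ := s^8 + (-28/19 : ℝ) * s^6 * p + (210/323 : ℝ) * s^4 * p^2 + (-28/323 : ℝ) * s^2 * p^3 + (7/4199 : ℝ) * p^4
structure G7 (S : Finset ι) (s : ι → ι → ℝ) : Prop where
  p0 : PK S fun i j => h7_0 (s i j) (s i i * s j j)
  p1 : PK S fun i j => h7_1 (s i j) (s i i * s j j)
  p2 : PK S fun i j => h7_2 (s i j) (s i i * s j j)
  p3 : PK S fun i j => h7_3 (s i j) (s i i * s j j)
  p4 : PK S fun i j => h7_4 (s i j) (s i i * s j j)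
  p5 : PK S fun i j => h7_5 (s i j) (s i i * s j j)
  p6 : PK S fun i j => h7_6 (s i j) (s i i * s j j)
  p7 : PK S fun i j => h7_7 (s i j) (s i i * s j j)
  p8 : PK S fun i j => h7_8 (s i j) (s i i * s j j)

noncomputable def h8_0 (s p : ℝ) : ℝ := (1 : ℝ)
noncomputable def h8_1 (s p : ℝ) : ℝ := s
noncomputable def h8_2 (s p : ℝ) : ℝ := s^2 + (-1/8 : ℝ) * p
noncomputable def h8_3 (s p : ℝ) : ℝ := s^3 + (-3/10 : ℝ) * s * p
noncomputable def h8_4 (s p : ℝ) : ℝ := s^4 + (-1/2 : ℝ) * s^2 * p + (1/40 : ℝ) * p^2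
noncomputable def h8_5 (s p : ℝ) : ℝ := s^5 + (-5/7 : ℝ) * s^3 * p + (5/56 : ℝ) * s * p^2
noncomputable def h8_6 (s p : ℝ) : ℝ := s^6 + (-15/16 : ℝ) * s^4 * p + (45/224 : ℝ) * s^2 * p^2 + (-5/896 : ℝ) * p^3
noncomputable def h8_7 (s p : ℝ) : ℝ := s^7 + (-7/6 : ℝ) * s^5 * p + (35/96 : ℝ) * s^3 * p^2 + (-5/192 : ℝ) * s * p^3
noncomputable def h8_8 (s p : ℝ) : ℝ := s^8 + (-7/5 : ℝ) * s^6 * p + (7/12 : ℝ) * s^4 * p^2 + (-7/96 : ℝ) * s^2 * p^3 + (1/768 : ℝ) * p^4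
structure G8 (S : Finset ι) (s : ι → ι → ℝ) : Prop where
  p0 : PK S fun i j => h8_0 (s i j) (s i i * s j j)
  p1 : PK S fun i j => h8_1 (s i j) (s i i * s j j)
  p2 : PK S fun i j => h8_2 (s i j) (s i i * s j j)
  p3 : PK S fun i j => h8_3 (s i j) (s i i * s j j)
  p4 : PK S fun i j => h8_4 (s i j) (s i i * s j j)
  p5 : PK S fun i j => h8_5 (s i j) (s i i * s j j)
  p6 : PK S fun i j => h8_6 (s i j) (s i i * s j j)
  p7 : PK S fun i j => h8_7 (s i j) (s i i * s j j)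
  p8 : PK S fun i j => h8_8 (s i j) (s i i * s j j)

theorem base2 (u v : ι → ℝ) : G2 S fun i j => u i * u j + v i * v j := by
  constructor
  · refine ((PK.rank1 S (c := (1 : ℝ)) (by norm_num) fun i => (1 : ℝ) * u i^0 * v i^0).add (PK.rank1 S (c := (1 : ℝ)) (by norm_num) fun i => (0:ℝ))).congr ?_
    intro i j; simp only [h2_0]; ring
  · refine ((PK.rank1 S (c := (1 : ℝ)) (by norm_num) fun i => (1 : ℝ) * u i^1 * v i^0).add (PK.rank1 S (c := (1 : ℝ)) (by norm_num) fun i => (1 : ℝ) * u i^0 * v i^1)).congr ?_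
    intro i j; simp only [h2_1]; ring
  · refine ((PK.rank1 S (c := (1/2 : ℝ)) (by norm_num) fun i => (1 : ℝ) * u i^2 * v i^0 + (-1 : ℝ) * u i^0 * v i^2).add (PK.rank1 S (c := (1/2 : ℝ)) (by norm_num) fun i => (2 : ℝ) * u i^1 * v i^1)).congr ?_
    intro i j; simp only [h2_2]; ring
  · refine ((PK.rank1 S (c := (1/4 : ℝ)) (by norm_num) fun i => (1 : ℝ) * u i^3 * v i^0 + (-3 : ℝ) * u i^1 * v i^2).add (PK.rank1 S (c := (1/4 : ℝ)) (by norm_num) fun i => (3 : ℝ) * u i^2 * v i^1 + (-1 : ℝ) * u i^0 * v i^3)).congr ?_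
    intro i j; simp only [h2_3]; ring
  · refine ((PK.rank1 S (c := (1/8 : ℝ)) (by norm_num) fun i => (1 : ℝ) * u i^4 * v i^0 + (-6 : ℝ) * u i^2 * v i^2 + (1 : ℝ) * u i^0 * v i^4).add (PK.rank1 S (c := (1/8 : ℝ)) (by norm_num) fun i => (4 : ℝ) * u i^3 * v i^1 + (-4 : ℝ) * u i^1 * v i^3)).congr ?_
    intro i j; simp only [h2_4]; ring
  · refine ((PK.rank1 S (c := (1/16 : ℝ)) (by norm_num) fun i => (1 : ℝ) * u i^5 * v i^0 + (-10 : ℝ) * u i^3 * v i^2 + (5 : ℝ) * u i^1 * v i^4).add (PK.rank1 S (c := (1/16 : ℝ)) (by norm_num) fun i => (5 : ℝ) * u i^4 * v i^1 + (-10 : ℝ) * u i^2 * v i^3 + (1 : ℝ) * u i^0 * v i^5)).congr ?_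
    intro i j; simp only [h2_5]; ring
  · refine ((PK.rank1 S (c := (1/32 : ℝ)) (by norm_num) fun i => (1 : ℝ) * u i^6 * v i^0 + (-15 : ℝ) * u i^4 * v i^2 + (15 : ℝ) * u i^2 * v i^4 + (-1 : ℝ) * u i^0 * v i^6).add (PK.rank1 S (c := (1/32 : ℝ)) (by norm_num) fun i => (6 : ℝ) * u i^5 * v i^1 + (-20 : ℝ) * u i^3 * v i^3 + (6 : ℝ) * u i^1 * v i^5)).congr ?_
    intro i j; simp only [h2_6]; ring
  · refine ((PK.rank1 S (c := (1/64 : ℝ)) (by norm_num) fun i => (1 : ℝ) * u i^7 * v i^0 + (-21 : ℝ) * u i^5 * v i^2 + (35 : ℝ) * u i^3 * v i^4 + (-7 : ℝ) * u i^1 * v i^6).add (PK.rank1 S (c := (1/64 : ℝ)) (by norm_num) fun i => (7 : ℝ) * u i^6 * v i^1 + (-35 : ℝ) * u i^4 * v i^3 + (21 : ℝ) * u i^2 * v i^5 + (-1 : ℝ) * u i^0 * v i^7)).congr ?_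
    intro i j; simp only [h2_7]; ring
  · refine ((PK.rank1 S (c := (1/128 : ℝ)) (by norm_num) fun i => (1 : ℝ) * u i^8 * v i^0 + (-28 : ℝ) * u i^6 * v i^2 + (70 : ℝ) * u i^4 * v i^4 + (-28 : ℝ) * u i^2 * v i^6 + (1 : ℝ) * u i^0 * v i^8).add (PK.rank1 S (c := (1/128 : ℝ)) (by norm_num) fun i => (8 : ℝ) * u i^7 * v i^1 + (-56 : ℝ) * u i^5 * v i^3 + (56 : ℝ) * u i^3 * v i^5 + (-8 : ℝ) * u i^1 * v i^7)).congr ?_
    intro i j; simp only [h2_8]; ring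

theorem step3_0 {s : ι → ι → ℝ} (h : G2 S s) (u : ι → ℝ) :
    PK S fun i j => h3_0 (s i j + u i * u j) ((s i i + u i * u i) * (s j j + u j * u j)) := by
  refine (h.p0.conj (c := (1 : ℝ)) (by norm_num) fun i => (1 : ℝ)).congr ?_
  intro i j; simp only [h3_0, h2_0]; ring

theorem step3_1 {s : ι → ι → ℝ} (h : G2 S s) (u : ι → ℝ) :
    PK S fun i j => h3_1 (s i j + u i * u j) ((s i i + u i * u i) * (s j j + u j * u j)) := by
  refine ((h.p1.conj (c := (1 : ℝ)) (by norm_num) fun i => (1 : ℝ)).add (h.p0.conj (c := (1 : ℝ)) (by norm_num) fun i => (u i))).congr ?_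
  intro i j; simp only [h3_1, h2_0, h2_1]; ring

theorem step3_2 {s : ι → ι → ℝ} (h : G2 S s) (u : ι → ℝ) :
    PK S fun i j => h3_2 (s i j + u i * u j) ((s i i + u i * u i) * (s j j + u j * u j)) := by
  refine (((h.p2.conj (c := (1 : ℝ)) (by norm_num) fun i => (1 : ℝ)).add (h.p1.conj (c := (2 : ℝ)) (by norm_num) fun i => (u i))).add (h.p0.conj (c := (3/2 : ℝ)) (by norm_num) fun i => (u i)^2 + (-1/3 : ℝ) * (s i i + u i * u i))).congr ?_
  intro i j; simp only [h3_2, h2_0, h2_1, h2_2]; ring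

theorem step3_3 {s : ι → ι → ℝ} (h : G2 S s) (u : ι → ℝ) :
    PK S fun i j => h3_3 (s i j + u i * u j) ((s i i + u i * u i) * (s j j + u j * u j)) := by
  refine ((((h.p3.conj (c := (1 : ℝ)) (by norm_num) fun i => (1 : ℝ)).add (h.p2.conj (c := (3 : ℝ)) (by norm_num) fun i => (u i))).add (h.p1.conj (c := (15/4 : ℝ)) (by norm_num) fun i => (u i)^2 + (-1/5 : ℝ) * (s i i + u i * u i))).add (h.p0.conj (c := (5/2 : ℝ)) (by norm_num) fun i => (u i)^3 + (-3/5 : ℝ) * (u i) * (s i i + u i * u i))).congr ?_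
  intro i j; simp only [h3_3, h2_0, h2_1, h2_2, h2_3]; ring

theorem step3_4 {s : ι → ι → ℝ} (h : G2 S s) (u : ι → ℝ) :
    PK S fun i j => h3_4 (s i j + u i * u j) ((s i i + u i * u i) * (s j j + u j * u j)) := by
  refine (((((h.p4.conj (c := (1 : ℝ)) (by norm_num) fun i => (1 : ℝ)).add (h.p3.conj (c := (4 : ℝ)) (by norm_num) fun i => (u i))).add (h.p2.conj (c := (7 : ℝ)) (by norm_num) fun i => (u i)^2 + (-1/7 : ℝ) * (s i i + u i * u i))).add (h.p1.conj (c := (7 : ℝ)) (by norm_num) fun i => (u i)^3 + (-3/7 : ℝ) * (u i) * (s i i + u i * u i))).add (h.p0.conj (c := (35/8 : ℝ)) (by norm_num) fun i => (u i)^4 + (-6/7 : ℝ) * (u i)^2 * (s i i + u i * u i) + (3/35 : ℝ) * (s i i + u i * u i)^2)).congr ?_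
  intro i j; simp only [h3_4, h2_0, h2_1, h2_2, h2_3, h2_4]; ring

theorem step3_5 {s : ι → ι → ℝ} (h : G2 S s) (u : ι → ℝ) :
    PK S fun i j => h3_5 (s i j + u i * u j) ((s i i + u i * u i) * (s j j + u j * u j)) := by
  refine ((((((h.p5.conj (c := (1 : ℝ)) (by norm_num) fun i => (1 : ℝ)).add (h.p4.conj (c := (5 : ℝ)) (by norm_num) fun i => (u i))).add (h.p3.conj (c := (45/4 : ℝ)) (by norm_num) fun i => (u i)^2 + (-1/9 : ℝ) * (s i i + u i * u i))).add (h.p2.conj (c := (15 : ℝ)) (by norm_num) fun i => (u i)^3 + (-1/3 : ℝ) * (u i) * (s i i + u i * u i))).add (h.p1.conj (c := (105/8 : ℝ)) (by norm_num) fun i => (u i)^4 + (-2/3 : ℝ) * (u i)^2 * (s i i + u i * u i) + (1/21 : ℝ) * (s i i + u i * u i)^2)).add (h.p0.conj (c := (63/8 : ℝ)) (by norm_num) fun i => (u i)^5 + (-10/9 : ℝ) * (u i)^3 * (s i i + u i * u i) + (5/21 : ℝ) * (u i) * (s i i + u i * u i)^2)).congr ?_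
  intro i j; simp only [h3_5, h2_0, h2_1, h2_2, h2_3, h2_4, h2_5]; ring

theorem step3_6 {s : ι → ι → ℝ} (h : G2 S s) (u : ι → ℝ) :
    PK S fun i j => h3_6 (s i j + u i * u j) ((s i i + u i * u i) * (s j j + u j * u j)) := by
  refine (((((((h.p6.conj (c := (1 : ℝ)) (by norm_num) fun i => (1 : ℝ)).add (h.p5.conj (c := (6 : ℝ)) (by norm_num) fun i => (u i))).add (h.p4.conj (c := (33/2 : ℝ)) (by norm_num) fun i => (u i)^2 + (-1/11 : ℝ) * (s i i + u i * u i))).add (h.p3.conj (c := (55/2 : ℝ)) (by norm_num) fun i => (u i)^3 + (-3/11 : ℝ) * (u i) * (s i i + u i * u i))).add (h.p2.conj (c := (495/16 : ℝ)) (by norm_num) fun i => (u i)^4 + (-6/11 : ℝ) * (u i)^2 * (s i i + u i * u i) + (1/33 : ℝ) * (s i i + u i * u i)^2)).add (h.p1.conj (c := (99/4 : ℝ)) (by norm_num) fun i => (u i)^5 + (-10/11 : ℝ) * (u i)^3 * (s i i + u i * u i) + (5/33 : ℝ) * (u i) * (s i i + u i * u i)^2)).add (h.p0.conj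 (c := (231/16 : ℝ)) (by norm_num) fun i => (u i)^6 + (-15/11 : ℝ) * (u i)^4 * (s i i + u i * u i) + (5/11 : ℝ) * (u i)^2 * (s i i + u i * u i)^2 + (-5/231 : ℝ) * (s i i + u i * u i)^3)).congr ?_
  intro i j; simp only [h3_6, h2_0, h2_1, h2_2, h2_3, h2_4, h2_5, h2_6]; ring

theorem step3_7 {s : ι → ι → ℝ} (h : G2 S s) (u : ι → ℝ) :
    PK S fun i j => h3_7 (s i j + u i * u j) ((s i i + u i * u i) * (s j j + u j * u j)) := by
  refine ((((((((h.p7.conj (c := (1 : ℝ)) (by norm_num) fun i => (1 : ℝ)).add (h.p6.conj (c := (7 : ℝ)) (by norm_num) fun i => (u i))).add (h.p5.conj (c := (91/4 : ℝ)) (by norm_num) fun i => (u i)^2 + (-1/13 : ℝ) * (s i i + u i * u i))).add (h.p4.conj (c := (91/2 : ℝ)) (by norm_num) fun i => (u i)^3 + (-3/13 : ℝ) * (u i) * (s i i + u i * u i))).add (h.p3.conj (c := (1001/16 : ℝ)) (by norm_num) fun i => (u i)^4 + (-6/13 : ℝ) * (u i)^2 * (s i i + u i * u i) + (3/143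 : ℝ) * (s i i + u i * u i)^2)).add (h.p2.conj (c := (1001/16 : ℝ)) (by norm_num) fun i => (u i)^5 + (-10/13 : ℝ) * (u i)^3 * (s i i + u i * u i) + (15/143 : ℝ) * (u i) * (s i i + u i * u i)^2)).add (h.p1.conj (c := (3003/64 : ℝ)) (by norm_num) fun i => (u i)^6 + (-15/13 : ℝ) * (u i)^4 * (s i i + u i * u i) + (45/143 : ℝ) * (u i)^2 * (s i i + u i * u i)^2 + (-5/429 : ℝ) * (s i i + u i * u i)^3)).add (h.p0.conj (c := (429/16 : ℝ)) (by norm_num) fun i => (u i)^7 + (-21/13 : ℝ) * (u i)^5 * (s i i + u i * u i) + (105/143 : ℝ) * (u i)^3 * (s i i + u i * u i)^2 + (-35/429 : ℝ) * (u i) * (s i i + u i * u i)^3)).congr ?_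
  intro i j; simp only [h3_7, h2_0, h2_1, h2_2, h2_3, h2_4, h2_5, h2_6, h2_7]; ring

theorem step3_8 {s : ι → ι → ℝ} (h : G2 S s) (u : ι → ℝ) :
    PK S fun i j => h3_8 (s i j + u i * u j) ((s i i + u i * u i) * (s j j + u j * u j)) := by
  refine (((((((((h.p8.conj (c := (1 : ℝ)) (by norm_num) fun i => (1 : ℝ)).add (h.p7.conj (c := (8 : ℝ)) (by norm_num) fun i => (u i))).add (h.p6.conj (c := (30 : ℝ)) (by norm_num) fun i => (u i)^2 + (-1/15 : ℝ) * (s i i + u i * u i))).add (h.p5.conj (c := (70 : ℝ)) (by norm_num) fun i => (u i)^3 + (-1/5 : ℝ) * (u i) * (s i i + u i * u i))).add (h.p4.conj (c := (455/4 : ℝ)) (by norm_num) fun i => (u i)^4 + (-2/5 : ℝ) * (u i)^2 * (s i i + u i * u i) + (1/65 : ℝ) * (s i i + u i * u i)^2)).add (h.p3.conj (c := (273/2 : ℝ)) (by norm_num) fun i => (u i)^5 + (-2/3 : ℝ) * (u i)^3 * (s i i + u i * u i) + (1/13 : ℝ) * (u i) * (s i i + u i * u i)^2)).add (h.p2.conj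 (c := (1001/8 : ℝ)) (by norm_num) fun i => (u i)^6 + (-1 : ℝ) * (u i)^4 * (s i i + u i * u i) + (3/13 : ℝ) * (u i)^2 * (s i i + u i * u i)^2 + (-1/143 : ℝ) * (s i i + u i * u i)^3)).add (h.p1.conj (c := (715/8 : ℝ)) (by norm_num) fun i => (u i)^7 + (-7/5 : ℝ) * (u i)^5 * (s i i + u i * u i) + (7/13 : ℝ) * (u i)^3 * (s i i + u i * u i)^2 + (-7/143 : ℝ) * (u i) * (s i i + u i * u i)^3)).add (h.p0.conj (c := (6435/128 : ℝ)) (by norm_num) fun i => (u i)^8 + (-28/15 : ℝ) * (u i)^6 * (s i i + u i * u i) + (14/13 : ℝ) * (u i)^4 * (s i i + u i * u i)^2 + (-28/143 : ℝ) * (u i)^2 * (s i i + u i * u i)^3 + (7/1287 : ℝ) * (s i i + u i * u i)^4)).congr ?_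
  intro i j; simp only [h3_8, h2_0, h2_1, h2_2, h2_3, h2_4, h2_5, h2_6, h2_7, h2_8]; ring

theorem step3 {s : ι → ι → ℝ} (h : G2 S s) (u : ι → ℝ) : G3 S fun i j => s i j + u i * u j :=
  ⟨step3_0 h u, step3_1 h u, step3_2 h u, step3_3 h u, step3_4 h u, step3_5 h u, step3_6 h u, step3_7 h u, step3_8 h u⟩

theorem step4_0 {s : ι → ι → ℝ} (h : G3 S s) (u : ι → ℝ) :
    PK S fun i j => h4_0 (s i j + u i * u j) ((s i i + u i * u i) * (s j j + u j * u j)) := by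
  refine (h.p0.conj (c := (1 : ℝ)) (by norm_num) fun i => (1 : ℝ)).congr ?_
  intro i j; simp only [h4_0, h3_0]; ring

theorem step4_1 {s : ι → ι → ℝ} (h : G3 S s) (u : ι → ℝ) :
    PK S fun i j => h4_1 (s i j + u i * u j) ((s i i + u i * u i) * (s j j + u j * u j)) := by
  refine ((h.p1.conj (c := (1 : ℝ)) (by norm_num) fun i => (1 : ℝ)).add (h.p0.conj (c := (1 : ℝ)) (by norm_num) fun i => (u i))).congr ?_
  intro i j; simp only [h4_1, h3_0, h3_1]; ring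

theorem step4_2 {s : ι → ι → ℝ} (h : G3 S s) (u : ι → ℝ) :
    PK S fun i j => h4_2 (s i j + u i * u j) ((s i i + u i * u i) * (s j j + u j * u j)) := by
  refine (((h.p2.conj (c := (1 : ℝ)) (by norm_num) fun i => (1 : ℝ)).add (h.p1.conj (c := (2 : ℝ)) (by norm_num) fun i => (u i))).add (h.p0.conj (c := (4/3 : ℝ)) (by norm_num) fun i => (u i)^2 + (-1/4 : ℝ) * (s i i + u i * u i))).congr ?_
  intro i j; simp only [h4_2, h3_0, h3_1, h3_2]; ring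

theorem step4_3 {s : ι → ι → ℝ} (h : G3 S s) (u : ι → ℝ) :
    PK S fun i j => h4_3 (s i j + u i * u j) ((s i i + u i * u i) * (s j j + u j * u j)) := by
  refine ((((h.p3.conj (c := (1 : ℝ)) (by norm_num) fun i => (1 : ℝ)).add (h.p2.conj (c := (3 : ℝ)) (by norm_num) fun i => (u i))).add (h.p1.conj (c := (18/5 : ℝ)) (by norm_num) fun i => (u i)^2 + (-1/6 : ℝ) * (s i i + u i * u i))).add (h.p0.conj (c := (2 : ℝ)) (by norm_num) fun i => (u i)^3 + (-1/2 : ℝ) * (u i) * (s i i + u i * u i))).congr ?_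
  intro i j; simp only [h4_3, h3_0, h3_1, h3_2, h3_3]; ring

theorem step4_4 {s : ι → ι → ℝ} (h : G3 S s) (u : ι → ℝ) :
    PK S fun i j => h4_4 (s i j + u i * u j) ((s i i + u i * u i) * (s j j + u j * u j)) := by
  refine (((((h.p4.conj (c := (1 : ℝ)) (by norm_num) fun i => (1 : ℝ)).add (h.p3.conj (c := (4 : ℝ)) (by norm_num) fun i => (u i))).add (h.p2.conj (c := (48/7 : ℝ)) (by norm_num) fun i => (u i)^2 + (-1/8 : ℝ) * (s i i + u i * u i))).add (h.p1.conj (c := (32/5 : ℝ)) (by norm_num) fun i => (u i)^3 + (-3/8 : ℝ) * (u i) * (s i i + u i * u i))).add (h.p0.conj (c := (16/5 : ℝ)) (by norm_num) fun i => (u i)^4 + (-3/4 : ℝ) * (u i)^2 * (s i i + u i * u i) + (1/16 : ℝ) * (s i i + u i * u i)^2)).congr ?_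
  intro i j; simp only [h4_4, h3_0, h3_1, h3_2, h3_3, h3_4]; ring

theorem step4_5 {s : ι → ι → ℝ} (h : G3 S s) (u : ι → ℝ) :
    PK S fun i j => h4_5 (s i j + u i * u j) ((s i i + u i * u i) * (s j j + u j * u j)) := by
  refine ((((((h.p5.conj (c := (1 : ℝ)) (by norm_num) fun i => (1 : ℝ)).add (h.p4.conj (c := (5 : ℝ)) (by norm_num) fun i => (u i))).add (h.p3.conj (c := (100/9 : ℝ)) (by norm_num) fun i => (u i)^2 + (-1/10 : ℝ) * (s i i + u i * u i))).add (h.p2.conj (c := (100/7 : ℝ)) (by norm_num) fun i => (u i)^3 + (-3/10 : ℝ) * (u i) * (s i i + u i * u i))).add (h.p1.conj (c := (80/7 : ℝ)) (by norm_num) fun i => (u i)^4 + (-3/5 : ℝ) * (u i)^2 * (s i i + u i * u i) + (3/80 : ℝ) * (s i i + u i * u i)^2)).add (h.p0.conj (c := (16/3 : ℝ)) (by norm_num) fun i => (u i)^5 + (-1 : ℝ) * (u i)^3 * (s i i + u i * u i) + (3/16 : ℝ) * (u i) * (s i i + u i * u i)^2)).congr ?_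
  intro i j; simp only [h4_5, h3_0, h3_1, h3_2, h3_3, h3_4, h3_5]; ring

theorem step4_6 {s : ι → ι → ℝ} (h : G3 S s) (u : ι → ℝ) :
    PK S fun i j => h4_6 (s i j + u i * u j) ((s i i + u i * u i) * (s j j + u j * u j)) := by
  refine (((((((h.p6.conj (c := (1 : ℝ)) (by norm_num) fun i => (1 : ℝ)).add (h.p5.conj (c := (6 : ℝ)) (by norm_num) fun i => (u i))).add (h.p4.conj (c := (180/11 : ℝ)) (by norm_num) fun i => (u i)^2 + (-1/12 : ℝ) * (s i i + u i * u i))).add (h.p3.conj (c := (80/3 : ℝ)) (by norm_num) fun i => (u i)^3 + (-1/4 : ℝ) * (u i) * (s i i + u i * u i))).add (h.p2.conj (c := (200/7 : ℝ)) (by norm_num) fun i => (u i)^4 + (-1/2 : ℝ) * (u i)^2 * (s i i + u i * u i) + (1/40 : ℝ) * (s i i + u i * u i)^2)).add (h.p1.conj (c := (144/7 : ℝ)) (by norm_num) fun i => (u i)^5 + (-5/6 : ℝ) * (u i)^3 * (s i i + u i * u i) + (1/8 : ℝ) * (u i) * (s i i + u i * u i)^2)).add (h.p0.conj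 (c := (64/7 : ℝ)) (by norm_num) fun i => (u i)^6 + (-5/4 : ℝ) * (u i)^4 * (s i i + u i * u i) + (3/8 : ℝ) * (u i)^2 * (s i i + u i * u i)^2 + (-1/64 : ℝ) * (s i i + u i * u i)^3)).congr ?_
  intro i j; simp only [h4_6, h3_0, h3_1, h3_2, h3_3, h3_4, h3_5, h3_6]; ring

theorem step4_7 {s : ι → ι → ℝ} (h : G3 S s) (u : ι → ℝ) :
    PK S fun i j => h4_7 (s i j + u i * u j) ((s i i + u i * u i) * (s j j + u j * u j)) := by
  refine ((((((((h.p7.conj (c := (1 : ℝ)) (by norm_num) fun i => (1 : ℝ)).add (h.p6.conj (c := (7 : ℝ)) (by norm_num) fun i => (u i))).add (h.p5.conj (c := (294/13 : ℝ)) (by norm_num) fun i => (u i)^2 + (-1/14 : ℝ) * (s i i + u i * u i))).add (h.p4.conj (c := (490/11 : ℝ)) (by norm_num) fun i => (u i)^3 + (-3/14 : ℝ) * (u i) * (s i i + u i * u i))).add (h.p3.conj (c := (1960/33 : ℝ)) (by norm_num) fun i => (u i)^4 + (-3/7 : ℝ) * (u i)^2 * (s i i + u i * u i) + (1/56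 : ℝ) * (s i i + u i * u i)^2)).add (h.p2.conj (c := (56 : ℝ)) (by norm_num) fun i => (u i)^5 + (-5/7 : ℝ) * (u i)^3 * (s i i + u i * u i) + (5/56 : ℝ) * (u i) * (s i i + u i * u i)^2)).add (h.p1.conj (c := (112/3 : ℝ)) (by norm_num) fun i => (u i)^6 + (-15/14 : ℝ) * (u i)^4 * (s i i + u i * u i) + (15/56 : ℝ) * (u i)^2 * (s i i + u i * u i)^2 + (-1/112 : ℝ) * (s i i + u i * u i)^3)).add (h.p0.conj (c := (16 : ℝ)) (by norm_num) fun i => (u i)^7 + (-3/2 : ℝ) * (u i)^5 * (s i i + u i * u i) + (5/8 : ℝ) * (u i)^3 * (s i i + u i * u i)^2 + (-1/16 : ℝ) * (u i) * (s i i + u i * u i)^3)).congr ?_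
  intro i j; simp only [h4_7, h3_0, h3_1, h3_2, h3_3, h3_4, h3_5, h3_6, h3_7]; ring

theorem step4_8 {s : ι → ι → ℝ} (h : G3 S s) (u : ι → ℝ) :
    PK S fun i j => h4_8 (s i j + u i * u j) ((s i i + u i * u i) * (s j j + u j * u j)) := by
  refine (((((((((h.p8.conj (c := (1 : ℝ)) (by norm_num) fun i => (1 : ℝ)).add (h.p7.conj (c := (8 : ℝ)) (by norm_num) fun i => (u i))).add (h.p6.conj (c := (448/15 : ℝ)) (by norm_num) fun i => (u i)^2 + (-1/16 : ℝ) * (s i i + u i * u i))).add (h.p5.conj (c := (896/13 : ℝ)) (by norm_num) fun i => (u i)^3 + (-3/16 : ℝ) * (u i) * (s i i + u i * u i))).add (h.p4.conj (c := (15680/143 : ℝ)) (by norm_num) fun i => (u i)^4 + (-3/8 : ℝ) * (u i)^2 * (s i i + u i * u i) + (3/224 : ℝ) * (s i i + u i * u i)^2)).add (h.p3.conj (c := (12544/99 : ℝ)) (by norm_num) fun i => (u i)^5 + (-5/8 : ℝ) * (u i)^3 * (s i i + u i * u i) + (15/224 : ℝ) * (u i) * (s i i + u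 i * u i)^2)).add (h.p2.conj (c := (3584/33 : ℝ)) (by norm_num) fun i => (u i)^6 + (-15/16 : ℝ) * (u i)^4 * (s i i + u i * u i) + (45/224 : ℝ) * (u i)^2 * (s i i + u i * u i)^2 + (-5/896 : ℝ) * (s i i + u i * u i)^3)).add (h.p1.conj (c := (1024/15 : ℝ)) (by norm_num) fun i => (u i)^7 + (-21/16 : ℝ) * (u i)^5 * (s i i + u i * u i) + (15/32 : ℝ) * (u i)^3 * (s i i + u i * u i)^2 + (-5/128 : ℝ) * (u i) * (s i i + u i * u i)^3)).add (h.p0.conj (c := (256/9 : ℝ)) (by norm_num) fun i => (u i)^8 + (-7/4 : ℝ) * (u i)^6 * (s i i + u i * u i) + (15/16 : ℝ) * (u i)^4 * (s i i + u i * u i)^2 + (-5/32 : ℝ) * (u i)^2 * (s i i + u i * u i)^3 + (1/256 : ℝ) * (s i i + u i * u i)^4)).congr ?_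
  intro i j; simp only [h4_8, h3_0, h3_1, h3_2, h3_3, h3_4, h3_5, h3_6, h3_7, h3_8]; ring

theorem step4 {s : ι → ι → ℝ} (h : G3 S s) (u : ι → ℝ) : G4 S fun i j => s i j + u i * u j :=
  ⟨step4_0 h u, step4_1 h u, step4_2 h u, step4_3 h u, step4_4 h u, step4_5 h u, step4_6 h u, step4_7 h u, step4_8 h u⟩

theorem step5_0 {s : ι → ι → ℝ} (h : G4 S s) (u : ι → ℝ) :
    PK S fun i j => h5_0 (s i j + u i * u j) ((s i i + u i * u i) * (s j j + u j * u j)) := by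
  refine (h.p0.conj (c := (1 : ℝ)) (by norm_num) fun i => (1 : ℝ)).congr ?_
  intro i j; simp only [h5_0, h4_0]; ring

theorem step5_1 {s : ι → ι → ℝ} (h : G4 S s) (u : ι → ℝ) :
    PK S fun i j => h5_1 (s i j + u i * u j) ((s i i + u i * u i) * (s j j + u j * u j)) := by
  refine ((h.p1.conj (c := (1 : ℝ)) (by norm_num) fun i => (1 : ℝ)).add (h.p0.conj (c := (1 : ℝ)) (by norm_num) fun i => (u i))).congr ?_
  intro i j; simp only [h5_1, h4_0, h4_1]; ring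

theorem step5_2 {s : ι → ι → ℝ} (h : G4 S s) (u : ι → ℝ) :
    PK S fun i j => h5_2 (s i j + u i * u j) ((s i i + u i * u i) * (s j j + u j * u j)) := by
  refine (((h.p2.conj (c := (1 : ℝ)) (by norm_num) fun i => (1 : ℝ)).add (h.p1.conj (c := (2 : ℝ)) (by norm_num) fun i => (u i))).add (h.p0.conj (c := (5/4 : ℝ)) (by norm_num) fun i => (u i)^2 + (-1/5 : ℝ) * (s i i + u i * u i))).congr ?_
  intro i j; simp only [h5_2, h4_0, h4_1, h4_2]; ring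

theorem step5_3 {s : ι → ι → ℝ} (h : G4 S s) (u : ι → ℝ) :
    PK S fun i j => h5_3 (s i j + u i * u j) ((s i i + u i * u i) * (s j j + u j * u j)) := by
  refine ((((h.p3.conj (c := (1 : ℝ)) (by norm_num) fun i => (1 : ℝ)).add (h.p2.conj (c := (3 : ℝ)) (by norm_num) fun i => (u i))).add (h.p1.conj (c := (7/2 : ℝ)) (by norm_num) fun i => (u i)^2 + (-1/7 : ℝ) * (s i i + u i * u i))).add (h.p0.conj (c := (7/4 : ℝ)) (by norm_num) fun i => (u i)^3 + (-3/7 : ℝ) * (u i) * (s i i + u i * u i))).congr ?_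
  intro i j; simp only [h5_3, h4_0, h4_1, h4_2, h4_3]; ring

theorem step5_4 {s : ι → ι → ℝ} (h : G4 S s) (u : ι → ℝ) :
    PK S fun i j => h5_4 (s i j + u i * u j) ((s i i + u i * u i) * (s j j + u j * u j)) := by
  refine (((((h.p4.conj (c := (1 : ℝ)) (by norm_num) fun i => (1 : ℝ)).add (h.p3.conj (c := (4 : ℝ)) (by norm_num) fun i => (u i))).add (h.p2.conj (c := (27/4 : ℝ)) (by norm_num) fun i => (u i)^2 + (-1/9 : ℝ) * (s i i + u i * u i))).add (h.p1.conj (c := (6 : ℝ)) (by norm_num) fun i => (u i)^3 + (-1/3 : ℝ) * (u i) * (s i i + u i * u i))).add (h.p0.conj (c := (21/8 : ℝ)) (by norm_num) fun i => (u i)^4 + (-2/3 : ℝ) * (u i)^2 * (s i i + u i * u i) + (1/21 : ℝ) * (s i i + u i * u i)^2)).congr ?_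
  intro i j; simp only [h5_4, h4_0, h4_1, h4_2, h4_3, h4_4]; ring

theorem step5_5 {s : ι → ι → ℝ} (h : G4 S s) (u : ι → ℝ) :
    PK S fun i j => h5_5 (s i j + u i * u j) ((s i i + u i * u i) * (s j j + u j * u j)) := by
  refine ((((((h.p5.conj (c := (1 : ℝ)) (by norm_num) fun i => (1 : ℝ)).add (h.p4.conj (c := (5 : ℝ)) (by norm_num) fun i => (u i))).add (h.p3.conj (c := (11 : ℝ)) (by norm_num) fun i => (u i)^2 + (-1/11 : ℝ) * (s i i + u i * u i))).add (h.p2.conj (c := (55/4 : ℝ)) (by norm_num) fun i => (u i)^3 + (-3/11 : ℝ) * (u i) * (s i i + u i * u i))).add (h.p1.conj (c := (165/16 : ℝ)) (by norm_num) fun i => (u i)^4 + (-6/11 : ℝ) * (u i)^2 * (s i i + u i * u i) + (1/33 : ℝ) * (s i i + u i * u i)^2)).add (h.p0.conj (c := (33/8 : ℝ)) (by norm_num) fun i => (u i)^5 + (-10/11 : ℝ) * (u i)^3 * (s i i + u i * u i) + (5/33 : ℝ) * (u i) * (s i i + u i * u i)^2)).congr ?_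
  intro i j; simp only [h5_5, h4_0, h4_1, h4_2, h4_3, h4_4, h4_5]; ring

theorem step5_6 {s : ι → ι → ℝ} (h : G4 S s) (u : ι → ℝ) :
    PK S fun i j => h5_6 (s i j + u i * u j) ((s i i + u i * u i) * (s j j + u j * u j)) := by
  refine (((((((h.p6.conj (c := (1 : ℝ)) (by norm_num) fun i => (1 : ℝ)).add (h.p5.conj (c := (6 : ℝ)) (by norm_num) fun i => (u i))).add (h.p4.conj (c := (65/4 : ℝ)) (by norm_num) fun i => (u i)^2 + (-1/13 : ℝ) * (s i i + u i * u i))).add (h.p3.conj (c := (26 : ℝ)) (by norm_num) fun i => (u i)^3 + (-3/13 : ℝ) * (u i) * (s i i + u i * u i))).add (h.p2.conj (c := (429/16 : ℝ)) (by norm_num) fun i => (u i)^4 + (-6/13 : ℝ) * (u i)^2 * (s i i + u i * u i) + (3/143 : ℝ) * (s i i + u i * u i)^2)).add (h.p1.conj (c := (143/8 : ℝ)) (by norm_num) fun i => (u i)^5 + (-10/13 : ℝ) * (u i)^3 * (s i i + u i * u i) + (15/143 : ℝ) * (u i) * (s i i + u i * u i)^2)).add (h.p0.conj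 (c := (429/64 : ℝ)) (by norm_num) fun i => (u i)^6 + (-15/13 : ℝ) * (u i)^4 * (s i i + u i * u i) + (45/143 : ℝ) * (u i)^2 * (s i i + u i * u i)^2 + (-5/429 : ℝ) * (s i i + u i * u i)^3)).congr ?_
  intro i j; simp only [h5_6, h4_0, h4_1, h4_2, h4_3, h4_4, h4_5, h4_6]; ring

theorem step5_7 {s : ι → ι → ℝ} (h : G4 S s) (u : ι → ℝ) :
    PK S fun i j => h5_7 (s i j + u i * u j) ((s i i + u i * u i) * (s j j + u j * u j)) := by
  refine ((((((((h.p7.conj (c := (1 : ℝ)) (by norm_num) fun i => (1 : ℝ)).add (h.p6.conj (c := (7 : ℝ)) (by norm_num) fun i => (u i))).add (h.p5.conj (c := (45/2 : ℝ)) (by norm_num) fun i => (u i)^2 + (-1/15 : ℝ) * (s i i + u i * u i))).add (h.p4.conj (c := (175/4 : ℝ)) (by norm_num) fun i => (u i)^3 + (-1/5 : ℝ) * (u i) * (s i i + u i * u i))).add (h.p3.conj (c := (455/8 : ℝ)) (by norm_num) fun i => (u i)^4 + (-2/5 : ℝ) * (u i)^2 * (s i i + u i * u i) + (1/65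 : ℝ) * (s i i + u i * u i)^2)).add (h.p2.conj (c := (819/16 : ℝ)) (by norm_num) fun i => (u i)^5 + (-2/3 : ℝ) * (u i)^3 * (s i i + u i * u i) + (1/13 : ℝ) * (u i) * (s i i + u i * u i)^2)).add (h.p1.conj (c := (1001/32 : ℝ)) (by norm_num) fun i => (u i)^6 + (-1 : ℝ) * (u i)^4 * (s i i + u i * u i) + (3/13 : ℝ) * (u i)^2 * (s i i + u i * u i)^2 + (-1/143 : ℝ) * (s i i + u i * u i)^3)).add (h.p0.conj (c := (715/64 : ℝ)) (by norm_num) fun i => (u i)^7 + (-7/5 : ℝ) * (u i)^5 * (s i i + u i * u i) + (7/13 : ℝ) * (u i)^3 * (s i i + u i * u i)^2 + (-7/143 : ℝ) * (u i) * (s i i + u i * u i)^3)).congr ?_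
  intro i j; simp only [h5_7, h4_0, h4_1, h4_2, h4_3, h4_4, h4_5, h4_6, h4_7]; ring

theorem step5_8 {s : ι → ι → ℝ} (h : G4 S s) (u : ι → ℝ) :
    PK S fun i j => h5_8 (s i j + u i * u j) ((s i i + u i * u i) * (s j j + u j * u j)) := by
  refine (((((((((h.p8.conj (c := (1 : ℝ)) (by norm_num) fun i => (1 : ℝ)).add (h.p7.conj (c := (8 : ℝ)) (by norm_num) fun i => (u i))).add (h.p6.conj (c := (119/4 : ℝ)) (by norm_num) fun i => (u i)^2 + (-1/17 : ℝ) * (s i i + u i * u i))).add (h.p5.conj (c := (68 : ℝ)) (by norm_num) fun i => (u i)^3 + (-3/17 : ℝ) * (u i) * (s i i + u i * u i))).add (h.p4.conj (c := (425/4 : ℝ)) (by norm_num) fun i => (u i)^4 + (-6/17 : ℝ) * (u i)^2 * (s i i + u i * u i) + (1/85 : ℝ) * (s i i + u i * u i)^2)).add (h.p3.conj (c := (119 : ℝ)) (by norm_num) fun i => (u i)^5 + (-10/17 : ℝ) * (u i)^3 * (s i i + u i * u i) + (1/17 : ℝ) * (u i) * (s i i + u i * u i)^2)).add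 (h.p2.conj (c := (1547/16 : ℝ)) (by norm_num) fun i => (u i)^6 + (-15/17 : ℝ) * (u i)^4 * (s i i + u i * u i) + (3/17 : ℝ) * (u i)^2 * (s i i + u i * u i)^2 + (-1/221 : ℝ) * (s i i + u i * u i)^3)).add (h.p1.conj (c := (221/4 : ℝ)) (by norm_num) fun i => (u i)^7 + (-21/17 : ℝ) * (u i)^5 * (s i i + u i * u i) + (7/17 : ℝ) * (u i)^3 * (s i i + u i * u i)^2 + (-7/221 : ℝ) * (u i) * (s i i + u i * u i)^3)).add (h.p0.conj (c := (2431/128 : ℝ)) (by norm_num) fun i => (u i)^8 + (-28/17 : ℝ) * (u i)^6 * (s i i + u i * u i) + (14/17 : ℝ) * (u i)^4 * (s i i + u i * u i)^2 + (-28/221 : ℝ) * (u i)^2 * (s i i + u i * u i)^3 + (7/2431 : ℝ) * (s i i + u i * u i)^4)).congr ?_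
  intro i j; simp only [h5_8, h4_0, h4_1, h4_2, h4_3, h4_4, h4_5, h4_6, h4_7, h4_8]; ring

theorem step5 {s : ι → ι → ℝ} (h : G4 S s) (u : ι → ℝ) : G5 S fun i j => s i j + u i * u j :=
  ⟨step5_0 h u, step5_1 h u, step5_2 h u, step5_3 h u, step5_4 h u, step5_5 h u, step5_6 h u, step5_7 h u, step5_8 h u⟩

theorem step6_0 {s : ι → ι → ℝ} (h : G5 S s) (u : ι → ℝ) :
    PK S fun i j => h6_0 (s i j + u i * u j) ((s i i + u i * u i) * (s j j + u j * u j)) := by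
  refine (h.p0.conj (c := (1 : ℝ)) (by norm_num) fun i => (1 : ℝ)).congr ?_
  intro i j; simp only [h6_0, h5_0]; ring

theorem step6_1 {s : ι → ι → ℝ} (h : G5 S s) (u : ι → ℝ) :
    PK S fun i j => h6_1 (s i j + u i * u j) ((s i i + u i * u i) * (s j j + u j * u j)) := by
  refine ((h.p1.conj (c := (1 : ℝ)) (by norm_num) fun i => (1 : ℝ)).add (h.p0.conj (c := (1 : ℝ)) (by norm_num) fun i => (u i))).congr ?_
  intro i j; simp only [h6_1, h5_0, h5_1]; ring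

theorem step6_2 {s : ι → ι → ℝ} (h : G5 S s) (u : ι → ℝ) :
    PK S fun i j => h6_2 (s i j + u i * u j) ((s i i + u i * u i) * (s j j + u j * u j)) := by
  refine (((h.p2.conj (c := (1 : ℝ)) (by norm_num) fun i => (1 : ℝ)).add (h.p1.conj (c := (2 : ℝ)) (by norm_num) fun i => (u i))).add (h.p0.conj (c := (6/5 : ℝ)) (by norm_num) fun i => (u i)^2 + (-1/6 : ℝ) * (s i i + u i * u i))).congr ?_
  intro i j; simp only [h6_2, h5_0, h5_1, h5_2]; ring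

theorem step6_3 {s : ι → ι → ℝ} (h : G5 S s) (u : ι → ℝ) :
    PK S fun i j => h6_3 (s i j + u i * u j) ((s i i + u i * u i) * (s j j + u j * u j)) := by
  refine ((((h.p3.conj (c := (1 : ℝ)) (by norm_num) fun i => (1 : ℝ)).add (h.p2.conj (c := (3 : ℝ)) (by norm_num) fun i => (u i))).add (h.p1.conj (c := (24/7 : ℝ)) (by norm_num) fun i => (u i)^2 + (-1/8 : ℝ) * (s i i + u i * u i))).add (h.p0.conj (c := (8/5 : ℝ)) (by norm_num) fun i => (u i)^3 + (-3/8 : ℝ) * (u i) * (s i i + u i * u i))).congr ?_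
  intro i j; simp only [h6_3, h5_0, h5_1, h5_2, h5_3]; ring

theorem step6_4 {s : ι → ι → ℝ} (h : G5 S s) (u : ι → ℝ) :
    PK S fun i j => h6_4 (s i j + u i * u j) ((s i i + u i * u i) * (s j j + u j * u j)) := by
  refine (((((h.p4.conj (c := (1 : ℝ)) (by norm_num) fun i => (1 : ℝ)).add (h.p3.conj (c := (4 : ℝ)) (by norm_num) fun i => (u i))).add (h.p2.conj (c := (20/3 : ℝ)) (by norm_num) fun i => (u i)^2 + (-1/10 : ℝ) * (s i i + u i * u i))).add (h.p1.conj (c := (40/7 : ℝ)) (by norm_num) fun i => (u i)^3 + (-3/10 : ℝ) * (u i) * (s i i + u i * u i))).add (h.p0.conj (c := (16/7 : ℝ)) (by norm_num) fun i => (u i)^4 + (-3/5 : ℝ) * (u i)^2 * (s i i + u i * u i) + (3/80 : ℝ) * (s i i + u i * u i)^2)).congr ?_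
  intro i j; simp only [h6_4, h5_0, h5_1, h5_2, h5_3, h5_4]; ring

theorem step6_5 {s : ι → ι → ℝ} (h : G5 S s) (u : ι → ℝ) :
    PK S fun i j => h6_5 (s i j + u i * u j) ((s i i + u i * u i) * (s j j + u j * u j)) := by
  refine ((((((h.p5.conj (c := (1 : ℝ)) (by norm_num) fun i => (1 : ℝ)).add (h.p4.conj (c := (5 : ℝ)) (by norm_num) fun i => (u i))).add (h.p3.conj (c := (120/11 : ℝ)) (by norm_num) fun i => (u i)^2 + (-1/12 : ℝ) * (s i i + u i * u i))).add (h.p2.conj (c := (40/3 : ℝ)) (by norm_num) fun i => (u i)^3 + (-1/4 : ℝ) * (u i) * (s i i + u i * u i))).add (h.p1.conj (c := (200/21 : ℝ)) (by norm_num) fun i => (u i)^4 + (-1/2 : ℝ) * (u i)^2 * (s i i + u i * u i) + (1/40 : ℝ) * (s i i + u i * u i)^2)).add (h.p0.conj (c := (24/7 : ℝ)) (by norm_num) fun i => (u i)^5 + (-5/6 : ℝ) * (u i)^3 * (s i i + u i * u i) + (1/8 : ℝ) * (u i) * (s i i + u i * u i)^2)).congr ?_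
  intro i j; simp only [h6_5, h5_0, h5_1, h5_2, h5_3, h5_4, h5_5]; ring

theorem step6_6 {s : ι → ι → ℝ} (h : G5 S s) (u : ι → ℝ) :
    PK S fun i j => h6_6 (s i j + u i * u j) ((s i i + u i * u i) * (s j j + u j * u j)) := by
  refine (((((((h.p6.conj (c := (1 : ℝ)) (by norm_num) fun i => (1 : ℝ)).add (h.p5.conj (c := (6 : ℝ)) (by norm_num) fun i => (u i))).add (h.p4.conj (c := (210/13 : ℝ)) (by norm_num) fun i => (u i)^2 + (-1/14 : ℝ) * (s i i + u i * u i))).add (h.p3.conj (c := (280/11 : ℝ)) (by norm_num) fun i => (u i)^3 + (-3/14 : ℝ) * (u i) * (s i i + u i * u i))).add (h.p2.conj (c := (280/11 : ℝ)) (by norm_num) fun i => (u i)^4 + (-3/7 : ℝ) * (u i)^2 * (s i i + u i * u i) + (1/56 : ℝ) * (s i i + u i * u i)^2)).add (h.p1.conj (c := (16 : ℝ)) (by norm_num) fun i => (u i)^5 + (-5/7 : ℝ) * (u i)^3 * (s i i + u i * u i) + (5/56 : ℝ) * (u i) * (s i i + u i * u i)^2)).add (h.p0.conj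 (c := (16/3 : ℝ)) (by norm_num) fun i => (u i)^6 + (-15/14 : ℝ) * (u i)^4 * (s i i + u i * u i) + (15/56 : ℝ) * (u i)^2 * (s i i + u i * u i)^2 + (-1/112 : ℝ) * (s i i + u i * u i)^3)).congr ?_
  intro i j; simp only [h6_6, h5_0, h5_1, h5_2, h5_3, h5_4, h5_5, h5_6]; ring

theorem step6_7 {s : ι → ι → ℝ} (h : G5 S s) (u : ι → ℝ) :
    PK S fun i j => h6_7 (s i j + u i * u j) ((s i i + u i * u i) * (s j j + u j * u j)) := by
  refine ((((((((h.p7.conj (c := (1 : ℝ)) (by norm_num) fun i => (1 : ℝ)).add (h.p6.conj (c := (7 : ℝ)) (by norm_num) fun i => (u i))).add (h.p5.conj (c := (112/5 : ℝ)) (by norm_num) fun i => (u i)^2 + (-1/16 : ℝ) * (s i i + u i * u i))).add (h.p4.conj (c := (560/13 : ℝ)) (by norm_num) fun i => (u i)^3 + (-3/16 : ℝ) * (u i) * (s i i + u i * u i))).add (h.p3.conj (c := (7840/143 : ℝ)) (by norm_num) fun i => (u i)^4 + (-3/8 : ℝ) * (u i)^2 * (s i i + u i * u i) + (3/224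 : ℝ) * (s i i + u i * u i)^2)).add (h.p2.conj (c := (1568/33 : ℝ)) (by norm_num) fun i => (u i)^5 + (-5/8 : ℝ) * (u i)^3 * (s i i + u i * u i) + (15/224 : ℝ) * (u i) * (s i i + u i * u i)^2)).add (h.p1.conj (c := (896/33 : ℝ)) (by norm_num) fun i => (u i)^6 + (-15/16 : ℝ) * (u i)^4 * (s i i + u i * u i) + (45/224 : ℝ) * (u i)^2 * (s i i + u i * u i)^2 + (-5/896 : ℝ) * (s i i + u i * u i)^3)).add (h.p0.conj (c := (128/15 : ℝ)) (by norm_num) fun i => (u i)^7 + (-21/16 : ℝ) * (u i)^5 * (s i i + u i * u i) + (15/32 : ℝ) * (u i)^3 * (s i i + u i * u i)^2 + (-5/128 : ℝ) * (u i) * (s i i + u i * u i)^3)).congr ?_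
  intro i j; simp only [h6_7, h5_0, h5_1, h5_2, h5_3, h5_4, h5_5, h5_6, h5_7]; ring

theorem step6_8 {s : ι → ι → ℝ} (h : G5 S s) (u : ι → ℝ) :
    PK S fun i j => h6_8 (s i j + u i * u j) ((s i i + u i * u i) * (s j j + u j * u j)) := by
  refine (((((((((h.p8.conj (c := (1 : ℝ)) (by norm_num) fun i => (1 : ℝ)).add (h.p7.conj (c := (8 : ℝ)) (by norm_num) fun i => (u i))).add (h.p6.conj (c := (504/17 : ℝ)) (by norm_num) fun i => (u i)^2 + (-1/18 : ℝ) * (s i i + u i * u i))).add (h.p5.conj (c := (336/5 : ℝ)) (by norm_num) fun i => (u i)^3 + (-1/6 : ℝ) * (u i) * (s i i + u i * u i))).add (h.p4.conj (c := (1344/13 : ℝ)) (by norm_num) fun i => (u i)^4 + (-1/3 : ℝ) * (u i)^2 * (s i i + u i * u i) + (1/96 : ℝ) * (s i i + u i * u i)^2)).add (h.p3.conj (c := (16128/143 : ℝ)) (by norm_num) fun i => (u i)^5 + (-5/9 : ℝ) * (u i)^3 * (s i i + u i * u i) + (5/96 : ℝ) * (u i) * (s i i + u i * u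 i)^2)).add (h.p2.conj (c := (12544/143 : ℝ)) (by norm_num) fun i => (u i)^6 + (-5/6 : ℝ) * (u i)^4 * (s i i + u i * u i) + (5/32 : ℝ) * (u i)^2 * (s i i + u i * u i)^2 + (-5/1344 : ℝ) * (s i i + u i * u i)^3)).add (h.p1.conj (c := (512/11 : ℝ)) (by norm_num) fun i => (u i)^7 + (-7/6 : ℝ) * (u i)^5 * (s i i + u i * u i) + (35/96 : ℝ) * (u i)^3 * (s i i + u i * u i)^2 + (-5/192 : ℝ) * (u i) * (s i i + u i * u i)^3)).add (h.p0.conj (c := (768/55 : ℝ)) (by norm_num) fun i => (u i)^8 + (-14/9 : ℝ) * (u i)^6 * (s i i + u i * u i) + (35/48 : ℝ) * (u i)^4 * (s i i + u i * u i)^2 + (-5/48 : ℝ) * (u i)^2 * (s i i + u i * u i)^3 + (5/2304 : ℝ) * (s i i + u i * u i)^4)).congr ?_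
  intro i j; simp only [h6_8, h5_0, h5_1, h5_2, h5_3, h5_4, h5_5, h5_6, h5_7, h5_8]; ring

theorem step6 {s : ι → ι → ℝ} (h : G5 S s) (u : ι → ℝ) : G6 S fun i j => s i j + u i * u j :=
  ⟨step6_0 h u, step6_1 h u, step6_2 h u, step6_3 h u, step6_4 h u, step6_5 h u, step6_6 h u, step6_7 h u, step6_8 h u⟩

theorem step7_0 {s : ι → ι → ℝ} (h : G6 S s) (u : ι → ℝ) :
    PK S fun i j => h7_0 (s i j + u i * u j) ((s i i + u i * u i) * (s j j + u j * u j)) := by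
  refine (h.p0.conj (c := (1 : ℝ)) (by norm_num) fun i => (1 : ℝ)).congr ?_
  intro i j; simp only [h7_0, h6_0]; ring

theorem step7_1 {s : ι → ι → ℝ} (h : G6 S s) (u : ι → ℝ) :
    PK S fun i j => h7_1 (s i j + u i * u j) ((s i i + u i * u i) * (s j j + u j * u j)) := by
  refine ((h.p1.conj (c := (1 : ℝ)) (by norm_num) fun i => (1 : ℝ)).add (h.p0.conj (c := (1 : ℝ)) (by norm_num) fun i => (u i))).congr ?_
  intro i j; simp only [h7_1, h6_0, h6_1]; ring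

theorem step7_2 {s : ι → ι → ℝ} (h : G6 S s) (u : ι → ℝ) :
    PK S fun i j => h7_2 (s i j + u i * u j) ((s i i + u i * u i) * (s j j + u j * u j)) := by
  refine (((h.p2.conj (c := (1 : ℝ)) (by norm_num) fun i => (1 : ℝ)).add (h.p1.conj (c := (2 : ℝ)) (by norm_num) fun i => (u i))).add (h.p0.conj (c := (7/6 : ℝ)) (by norm_num) fun i => (u i)^2 + (-1/7 : ℝ) * (s i i + u i * u i))).congr ?_
  intro i j; simp only [h7_2, h6_0, h6_1, h6_2]; ring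

theorem step7_3 {s : ι → ι → ℝ} (h : G6 S s) (u : ι → ℝ) :
    PK S fun i j => h7_3 (s i j + u i * u j) ((s i i + u i * u i) * (s j j + u j * u j)) := by
  refine ((((h.p3.conj (c := (1 : ℝ)) (by norm_num) fun i => (1 : ℝ)).add (h.p2.conj (c := (3 : ℝ)) (by norm_num) fun i => (u i))).add (h.p1.conj (c := (27/8 : ℝ)) (by norm_num) fun i => (u i)^2 + (-1/9 : ℝ) * (s i i + u i * u i))).add (h.p0.conj (c := (3/2 : ℝ)) (by norm_num) fun i => (u i)^3 + (-1/3 : ℝ) * (u i) * (s i i + u i * u i))).congr ?_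
  intro i j; simp only [h7_3, h6_0, h6_1, h6_2, h6_3]; ring

theorem step7_4 {s : ι → ι → ℝ} (h : G6 S s) (u : ι → ℝ) :
    PK S fun i j => h7_4 (s i j + u i * u j) ((s i i + u i * u i) * (s j j + u j * u j)) := by
  refine (((((h.p4.conj (c := (1 : ℝ)) (by norm_num) fun i => (1 : ℝ)).add (h.p3.conj (c := (4 : ℝ)) (by norm_num) fun i => (u i))).add (h.p2.conj (c := (33/5 : ℝ)) (by norm_num) fun i => (u i)^2 + (-1/11 : ℝ) * (s i i + u i * u i))).add (h.p1.conj (c := (11/2 : ℝ)) (by norm_num) fun i => (u i)^3 + (-3/11 : ℝ) * (u i) * (s i i + u i * u i))).add (h.p0.conj (c := (33/16 : ℝ)) (by norm_num) fun i => (u i)^4 + (-6/11 : ℝ) * (u i)^2 * (s i i + u i * u i) + (1/33 : ℝ) * (s i i + u i * u i)^2)).congr ?_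
  intro i j; simp only [h7_4, h6_0, h6_1, h6_2, h6_3, h6_4]; ring

theorem step7_5 {s : ι → ι → ℝ} (h : G6 S s) (u : ι → ℝ) :
    PK S fun i j => h7_5 (s i j + u i * u j) ((s i i + u i * u i) * (s j j + u j * u j)) := by
  refine ((((((h.p5.conj (c := (1 : ℝ)) (by norm_num) fun i => (1 : ℝ)).add (h.p4.conj (c := (5 : ℝ)) (by norm_num) fun i => (u i))).add (h.p3.conj (c := (65/6 : ℝ)) (by norm_num) fun i => (u i)^2 + (-1/13 : ℝ) * (s i i + u i * u i))).add (h.p2.conj (c := (13 : ℝ)) (by norm_num) fun i => (u i)^3 + (-3/13 : ℝ) * (u i) * (s i i + u i * u i))).add (h.p1.conj (c := (143/16 : ℝ)) (by norm_num) fun i => (u i)^4 + (-6/13 : ℝ) * (u i)^2 * (s i i + u i * u i) + (3/143 : ℝ) * (s i i + u i * u i)^2)).add (h.p0.conj (c := (143/48 : ℝ)) (by norm_num) fun i => (u i)^5 + (-10/13 : ℝ) * (u i)^3 * (s i i + u i * u i) + (15/143 : ℝ) * (u i) * (s i i + u i * u i)^2)).congr ?_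
  intro i j; simp only [h7_5, h6_0, h6_1, h6_2, h6_3, h6_4, h6_5]; ring

theorem step7_6 {s : ι → ι → ℝ} (h : G6 S s) (u : ι → ℝ) :
    PK S fun i j => h7_6 (s i j + u i * u j) ((s i i + u i * u i) * (s j j + u j * u j)) := by
  refine (((((((h.p6.conj (c := (1 : ℝ)) (by norm_num) fun i => (1 : ℝ)).add (h.p5.conj (c := (6 : ℝ)) (by norm_num) fun i => (u i))).add (h.p4.conj (c := (225/14 : ℝ)) (by norm_num) fun i => (u i)^2 + (-1/15 : ℝ) * (s i i + u i * u i))).add (h.p3.conj (c := (25 : ℝ)) (by norm_num) fun i => (u i)^3 + (-1/5 : ℝ) * (u i) * (s i i + u i * u i))).add (h.p2.conj (c := (195/8 : ℝ)) (by norm_num) fun i => (u i)^4 + (-2/5 : ℝ) * (u i)^2 * (s i i + u i * u i) + (1/65 : ℝ) * (s i i + u i * u i)^2)).add (h.p1.conj (c := (117/8 : ℝ)) (by norm_num) fun i => (u i)^5 + (-2/3 : ℝ) * (u i)^3 * (s i i + u i * u i) + (1/13 : ℝ) * (u i) * (s i i + u i * u i)^2)).add (h.p0.conj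 (c := (143/32 : ℝ)) (by norm_num) fun i => (u i)^6 + (-1 : ℝ) * (u i)^4 * (s i i + u i * u i) + (3/13 : ℝ) * (u i)^2 * (s i i + u i * u i)^2 + (-1/143 : ℝ) * (s i i + u i * u i)^3)).congr ?_
  intro i j; simp only [h7_6, h6_0, h6_1, h6_2, h6_3, h6_4, h6_5, h6_6]; ring

theorem step7_7 {s : ι → ι → ℝ} (h : G6 S s) (u : ι → ℝ) :
    PK S fun i j => h7_7 (s i j + u i * u j) ((s i i + u i * u i) * (s j j + u j * u j)) := by
  refine ((((((((h.p7.conj (c := (1 : ℝ)) (by norm_num) fun i => (1 : ℝ)).add (h.p6.conj (c := (7 : ℝ)) (by norm_num) fun i => (u i))).add (h.p5.conj (c := (357/16 : ℝ)) (by norm_num) fun i => (u i)^2 + (-1/17 : ℝ) * (s i i + u i * u i))).add (h.p4.conj (c := (85/2 : ℝ)) (by norm_num) fun i => (u i)^3 + (-3/17 : ℝ) * (u i) * (s i i + u i * u i))).add (h.p3.conj (c := (425/8 : ℝ)) (by norm_num) fun i => (u i)^4 + (-6/17 : ℝ) * (u i)^2 * (s i i + u i * u i) + (1/85 :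 ℝ) * (s i i + u i * u i)^2)).add (h.p2.conj (c := (357/8 : ℝ)) (by norm_num) fun i => (u i)^5 + (-10/17 : ℝ) * (u i)^3 * (s i i + u i * u i) + (1/17 : ℝ) * (u i) * (s i i + u i * u i)^2)).add (h.p1.conj (c := (1547/64 : ℝ)) (by norm_num) fun i => (u i)^6 + (-15/17 : ℝ) * (u i)^4 * (s i i + u i * u i) + (3/17 : ℝ) * (u i)^2 * (s i i + u i * u i)^2 + (-1/221 : ℝ) * (s i i + u i * u i)^3)).add (h.p0.conj (c := (221/32 : ℝ)) (by norm_num) fun i => (u i)^7 + (-21/17 : ℝ) * (u i)^5 * (s i i + u i * u i) + (7/17 : ℝ) * (u i)^3 * (s i i + u i * u i)^2 + (-7/221 : ℝ) * (u i) * (s i i + u i * u i)^3)).congr ?_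
  intro i j; simp only [h7_7, h6_0, h6_1, h6_2, h6_3, h6_4, h6_5, h6_6, h6_7]; ring

theorem step7_8 {s : ι → ι → ℝ} (h : G6 S s) (u : ι → ℝ) :
    PK S fun i j => h7_8 (s i j + u i * u j) ((s i i + u i * u i) * (s j j + u j * u j)) := by
  refine (((((((((h.p8.conj (c := (1 : ℝ)) (by norm_num) fun i => (1 : ℝ)).add (h.p7.conj (c := (8 : ℝ)) (by norm_num) fun i => (u i))).add (h.p6.conj (c := (266/9 : ℝ)) (by norm_num) fun i => (u i)^2 + (-1/19 : ℝ) * (s i i + u i * u i))).add (h.p5.conj (c := (133/2 : ℝ)) (by norm_num) fun i => (u i)^3 + (-3/19 : ℝ) * (u i) * (s i i + u i * u i))).add (h.p4.conj (c := (1615/16 : ℝ)) (by norm_num) fun i => (u i)^4 + (-6/19 : ℝ) * (u i)^2 * (s i i + u i * u i) + (3/323 : ℝ) * (s i i + u i * u i)^2)).add (h.p3.conj (c := (323/3 : ℝ)) (by norm_num) fun i => (u i)^5 + (-10/19 : ℝ) * (u i)^3 * (s i i + u i * u i) + (15/323 : ℝ) * (u i) * (s i i + u i *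 u i)^2)).add (h.p2.conj (c := (323/4 : ℝ)) (by norm_num) fun i => (u i)^6 + (-15/19 : ℝ) * (u i)^4 * (s i i + u i * u i) + (45/323 : ℝ) * (u i)^2 * (s i i + u i * u i)^2 + (-1/323 : ℝ) * (s i i + u i * u i)^3)).add (h.p1.conj (c := (323/8 : ℝ)) (by norm_num) fun i => (u i)^7 + (-21/19 : ℝ) * (u i)^5 * (s i i + u i * u i) + (105/323 : ℝ) * (u i)^3 * (s i i + u i * u i)^2 + (-7/323 : ℝ) * (u i) * (s i i + u i * u i)^3)).add (h.p0.conj (c := (4199/384 : ℝ)) (by norm_num) fun i => (u i)^8 + (-28/19 : ℝ) * (u i)^6 * (s i i + u i * u i) + (210/323 : ℝ) * (u i)^4 * (s i i + u i * u i)^2 + (-28/323 : ℝ) * (u i)^2 * (s i i + u i * u i)^3 + (7/4199 : ℝ) * (s i i + u i * u i)^4)).congr ?_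
  intro i j; simp only [h7_8, h6_0, h6_1, h6_2, h6_3, h6_4, h6_5, h6_6, h6_7, h6_8]; ring

theorem step7 {s : ι → ι → ℝ} (h : G6 S s) (u : ι → ℝ) : G7 S fun i j => s i j + u i * u j :=
  ⟨step7_0 h u, step7_1 h u, step7_2 h u, step7_3 h u, step7_4 h u, step7_5 h u, step7_6 h u, step7_7 h u, step7_8 h u⟩

theorem step8_0 {s : ι → ι → ℝ} (h : G7 S s) (u : ι → ℝ) :
    PK S fun i j => h8_0 (s i j + u i * u j) ((s i i + u i * u i) * (s j j + u j * u j)) := by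
  refine (h.p0.conj (c := (1 : ℝ)) (by norm_num) fun i => (1 : ℝ)).congr ?_
  intro i j; simp only [h8_0, h7_0]; ring

theorem step8_1 {s : ι → ι → ℝ} (h : G7 S s) (u : ι → ℝ) :
    PK S fun i j => h8_1 (s i j + u i * u j) ((s i i + u i * u i) * (s j j + u j * u j)) := by
  refine ((h.p1.conj (c := (1 : ℝ)) (by norm_num) fun i => (1 : ℝ)).add (h.p0.conj (c := (1 : ℝ)) (by norm_num) fun i => (u i))).congr ?_
  intro i j; simp only [h8_1, h7_0, h7_1]; ring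

theorem step8_2 {s : ι → ι → ℝ} (h : G7 S s) (u : ι → ℝ) :
    PK S fun i j => h8_2 (s i j + u i * u j) ((s i i + u i * u i) * (s j j + u j * u j)) := by
  refine (((h.p2.conj (c := (1 : ℝ)) (by norm_num) fun i => (1 : ℝ)).add (h.p1.conj (c := (2 : ℝ)) (by norm_num) fun i => (u i))).add (h.p0.conj (c := (8/7 : ℝ)) (by norm_num) fun i => (u i)^2 + (-1/8 : ℝ) * (s i i + u i * u i))).congr ?_
  intro i j; simp only [h8_2, h7_0, h7_1, h7_2]; ring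

theorem step8_3 {s : ι → ι → ℝ} (h : G7 S s) (u : ι → ℝ) :
    PK S fun i j => h8_3 (s i j + u i * u j) ((s i i + u i * u i) * (s j j + u j * u j)) := by
  refine ((((h.p3.conj (c := (1 : ℝ)) (by norm_num) fun i => (1 : ℝ)).add (h.p2.conj (c := (3 : ℝ)) (by norm_num) fun i => (u i))).add (h.p1.conj (c := (10/3 : ℝ)) (by norm_num) fun i => (u i)^2 + (-1/10 : ℝ) * (s i i + u i * u i))).add (h.p0.conj (c := (10/7 : ℝ)) (by norm_num) fun i => (u i)^3 + (-3/10 : ℝ) * (u i) * (s i i + u i * u i))).congr ?_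
  intro i j; simp only [h8_3, h7_0, h7_1, h7_2, h7_3]; ring

theorem step8_4 {s : ι → ι → ℝ} (h : G7 S s) (u : ι → ℝ) :
    PK S fun i j => h8_4 (s i j + u i * u j) ((s i i + u i * u i) * (s j j + u j * u j)) := by
  refine (((((h.p4.conj (c := (1 : ℝ)) (by norm_num) fun i => (1 : ℝ)).add (h.p3.conj (c := (4 : ℝ)) (by norm_num) fun i => (u i))).add (h.p2.conj (c := (72/11 : ℝ)) (by norm_num) fun i => (u i)^2 + (-1/12 : ℝ) * (s i i + u i * u i))).add (h.p1.conj (c := (16/3 : ℝ)) (by norm_num) fun i => (u i)^3 + (-1/4 : ℝ) * (u i) * (s i i + u i * u i))).add (h.p0.conj (c := (40/21 : ℝ)) (by norm_num) fun i => (u i)^4 + (-1/2 : ℝ) * (u i)^2 * (s i i + u i * u i) + (1/40 : ℝ) * (s i i + u i * u i)^2)).congr ?_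
  intro i j; simp only [h8_4, h7_0, h7_1, h7_2, h7_3, h7_4]; ring

theorem step8_5 {s : ι → ι → ℝ} (h : G7 S s) (u : ι → ℝ) :
    PK S fun i j => h8_5 (s i j + u i * u j) ((s i i + u i * u i) * (s j j + u j * u j)) := by
  refine ((((((h.p5.conj (c := (1 : ℝ)) (by norm_num) fun i => (1 : ℝ)).add (h.p4.conj (c := (5 : ℝ)) (by norm_num) fun i => (u i))).add (h.p3.conj (c := (140/13 : ℝ)) (by norm_num) fun i => (u i)^2 + (-1/14 : ℝ) * (s i i + u i * u i))).add (h.p2.conj (c := (140/11 : ℝ)) (by norm_num) fun i => (u i)^3 + (-3/14 : ℝ) * (u i) * (s i i + u i * u i))).add (h.p1.conj (c := (280/33 : ℝ)) (by norm_num) fun i => (u i)^4 + (-3/7 : ℝ) * (u i)^2 * (s i i + u i * u i) + (1/56 : ℝ) * (s i i + u i * u i)^2)).add (h.p0.conj (c := (8/3 : ℝ)) (by norm_num) fun i => (u i)^5 + (-5/7 : ℝ) * (u i)^3 * (s i i + u i * u i) + (5/56 : ℝ) * (u i) * (s i i + u i * u i)^2)).congr ?_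
  intro i j; simp only [h8_5, h7_0, h7_1, h7_2, h7_3, h7_4, h7_5]; ring

theorem step8_6 {s : ι → ι → ℝ} (h : G7 S s) (u : ι → ℝ) :
    PK S fun i j => h8_6 (s i j + u i * u j) ((s i i + u i * u i) * (s j j + u j * u j)) := by
  refine (((((((h.p6.conj (c := (1 : ℝ)) (by norm_num) fun i => (1 : ℝ)).add (h.p5.conj (c := (6 : ℝ)) (by norm_num) fun i => (u i))).add (h.p4.conj (c := (16 : ℝ)) (by norm_num) fun i => (u i)^2 + (-1/16 : ℝ) * (s i i + u i * u i))).add (h.p3.conj (c := (320/13 : ℝ)) (by norm_num) fun i => (u i)^3 + (-3/16 : ℝ) * (u i) * (s i i + u i * u i))).add (h.p2.conj (c := (3360/143 : ℝ)) (by norm_num) fun i => (u i)^4 + (-3/8 : ℝ) * (u i)^2 * (s i i + u i * u i) + (3/224 : ℝ) * (s i i + u i * u i)^2)).add (h.p1.conj (c := (448/33 : ℝ)) (by norm_num) fun i => (u i)^5 + (-5/8 : ℝ) * (u i)^3 * (s i i + u i * u i) + (15/224 : ℝ) * (u i) * (s i i + u i * u i)^2)).add (h.p0.conj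 (c := (128/33 : ℝ)) (by norm_num) fun i => (u i)^6 + (-15/16 : ℝ) * (u i)^4 * (s i i + u i * u i) + (45/224 : ℝ) * (u i)^2 * (s i i + u i * u i)^2 + (-5/896 : ℝ) * (s i i + u i * u i)^3)).congr ?_
  intro i j; simp only [h8_6, h7_0, h7_1, h7_2, h7_3, h7_4, h7_5, h7_6]; ring

theorem step8_7 {s : ι → ι → ℝ} (h : G7 S s) (u : ι → ℝ) :
    PK S fun i j => h8_7 (s i j + u i * u j) ((s i i + u i * u i) * (s j j + u j * u j)) := by
  refine ((((((((h.p7.conj (c := (1 : ℝ)) (by norm_num) fun i => (1 : ℝ)).add (h.p6.conj (c := (7 : ℝ)) (by norm_num) fun i => (u i))).add (h.p5.conj (c := (378/17 : ℝ)) (by norm_num) fun i => (u i)^2 + (-1/18 : ℝ) * (s i i + u i * u i))).add (h.p4.conj (c := (42 : ℝ)) (by norm_num) fun i => (u i)^3 + (-1/6 : ℝ) * (u i) * (s i i + u i * u i))).add (h.p3.conj (c := (672/13 : ℝ)) (by norm_num) fun i => (u i)^4 + (-1/3 : ℝ) * (u i)^2 * (s i i + u i * u i) + (1/96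 : ℝ) * (s i i + u i * u i)^2)).add (h.p2.conj (c := (6048/143 : ℝ)) (by norm_num) fun i => (u i)^5 + (-5/9 : ℝ) * (u i)^3 * (s i i + u i * u i) + (5/96 : ℝ) * (u i) * (s i i + u i * u i)^2)).add (h.p1.conj (c := (3136/143 : ℝ)) (by norm_num) fun i => (u i)^6 + (-5/6 : ℝ) * (u i)^4 * (s i i + u i * u i) + (5/32 : ℝ) * (u i)^2 * (s i i + u i * u i)^2 + (-5/1344 : ℝ) * (s i i + u i * u i)^3)).add (h.p0.conj (c := (64/11 : ℝ)) (by norm_num) fun i => (u i)^7 + (-7/6 : ℝ) * (u i)^5 * (s i i + u i * u i) + (35/96 : ℝ) * (u i)^3 * (s i i + u i * u i)^2 + (-5/192 : ℝ) * (u i) * (s i i + u i * u i)^3)).congr ?_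
  intro i j; simp only [h8_7, h7_0, h7_1, h7_2, h7_3, h7_4, h7_5, h7_6, h7_7]; ring

theorem step8_8 {s : ι → ι → ℝ} (h : G7 S s) (u : ι → ℝ) :
    PK S fun i j => h8_8 (s i j + u i * u j) ((s i i + u i * u i) * (s j j + u j * u j)) := by
  refine (((((((((h.p8.conj (c := (1 : ℝ)) (by norm_num) fun i => (1 : ℝ)).add (h.p7.conj (c := (8 : ℝ)) (by norm_num) fun i => (u i))).add (h.p6.conj (c := (560/19 : ℝ)) (by norm_num) fun i => (u i)^2 + (-1/20 : ℝ) * (s i i + u i * u i))).add (h.p5.conj (c := (1120/17 : ℝ)) (by norm_num) fun i => (u i)^3 + (-3/20 : ℝ) * (u i) * (s i i + u i * u i))).add (h.p4.conj (c := (1680/17 : ℝ)) (by norm_num) fun i => (u i)^4 + (-3/10 : ℝ) * (u i)^2 * (s i i + u i * u i) + (1/120 : ℝ) * (s i i + u i * u i)^2)).add (h.p3.conj (c := (1344/13 : ℝ)) (by norm_num) fun i => (u i)^5 + (-1/2 : ℝ) * (u i)^3 * (s i i + u i * u i) + (1/24 : ℝ) * (u i) * (s i i + u i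 * u i)^2)).add (h.p2.conj (c := (10752/143 : ℝ)) (by norm_num) fun i => (u i)^6 + (-3/4 : ℝ) * (u i)^4 * (s i i + u i * u i) + (1/8 : ℝ) * (u i)^2 * (s i i + u i * u i)^2 + (-1/384 : ℝ) * (s i i + u i * u i)^3)).add (h.p1.conj (c := (5120/143 : ℝ)) (by norm_num) fun i => (u i)^7 + (-21/20 : ℝ) * (u i)^5 * (s i i + u i * u i) + (7/24 : ℝ) * (u i)^3 * (s i i + u i * u i)^2 + (-7/384 : ℝ) * (u i) * (s i i + u i * u i)^3)).add (h.p0.conj (c := (1280/143 : ℝ)) (by norm_num) fun i => (u i)^8 + (-7/5 : ℝ) * (u i)^6 * (s i i + u i * u i) + (7/12 : ℝ) * (u i)^4 * (s i i + u i * u i)^2 + (-7/96 : ℝ) * (u i)^2 * (s i i + u i * u i)^3 + (1/768 : ℝ) * (s i i + u i * u i)^4)).congr ?_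
  intro i j; simp only [h8_8, h7_0, h7_1, h7_2, h7_3, h7_4, h7_5, h7_6, h7_7, h7_8]; ring

theorem step8 {s : ι → ι → ℝ} (h : G7 S s) (u : ι → ℝ) : G8 S fun i j => s i j + u i * u j :=
  ⟨step8_0 h u, step8_1 h u, step8_2 h u, step8_3 h u, step8_4 h u, step8_5 h u, step8_6 h u, step8_7 h u, step8_8 h u⟩

end Pool.Agent.Lib.MP_e6e291_co
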