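import Pool.Agent.Lib.MP_e6e291_co.Geg
import Pool.Agent.Lib.MP_e6e291_co.Cert

set_option linter.unusedSimpArgs false

namespace Pool.Agent.Lib.MP_e6e291_co

open Finset

variable {ι : Type*} {S : Finset ι}

theorem PK.congr_on {K L : ι → ι → ℝ} (h : PK S K) (e : ∀ i ∈ S, ∀ j ∈ S, K i j = L i j) :
    PK S L := by
  intro w
  refine (h w).trans (le_of_eq ?_)
  exact sum_congr rfl fun i hi => sum_congr rfl fun j hj => by rw [e i hi j hj]

theorem PK.smul {K : ι → ι → ℝ} (h : PK S K) {c : ℝ} (hc : 0 ≤ c) :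
    PK S fun i j => c * K i j :=
  (h.conj hc fun _ => 1).congr fun i j => by ring

theorem g8 (S : Finset ι) (u : ι → EuclideanSpace ℝ (Fin 8)) :
    G8 S fun i j => inner ℝ (u i) (u j) := by
  have h := step8 (step7 (step6 (step5 (step4 (step3
    (base2 (S := S) (fun i => u i 0) fun i => u i 1) fun i => u i 2) fun i => u i 3)
      fun i => u i 4) fun i => u i 5) fun i => u i 6) fun i => u i 7
  have e : (fun i j => inner ℝ (u i) (u j)) = fun i j =>
      u i 0 * u j 0 + u i 1 * u j 1 + u i 2 * u j 2 + u i 3 * u j 3 + u i 4 * u j 4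
        + u i 5 * u j 5 + u i 6 * u j 6 + u i 7 * u j 7 := by
    funext i j
    simp only [PiLp.inner_apply, Fin.sum_univ_eight, Real.inner_apply]
  rw [e]
  exact h

theorem pk_H (u : ι → EuclideanSpace ℝ (Fin 8)) (hu : ∀ i ∈ S, inner ℝ (u i) (u i) = (1 : ℝ))
    (k : ℕ) : PK S fun i j => ev1 (inner ℝ (u i) (u j)) (Hk k) := by
  have h := g8 S u
  rcases k with _ | _ | _ | _ | _ | _ | _ | _ | _ | k
  · refine (h.p0.smul (c := 1) (by norm_num)).congr_on fun i hi j hj => ?_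
    simp only [hu i hi, hu j hj, h8_0, Hk, Hs, List.getD_cons_zero, List.getD_cons_succ, ev1, evL]
    push_cast; ring
  · refine (h.p1.smul (c := 1) (by norm_num)).congr_on fun i hi j hj => ?_
    simp only [hu i hi, hu j hj, h8_1, Hk, Hs, List.getD_cons_zero, List.getD_cons_succ, ev1, evL]
    push_cast; ring
  · refine (h.p2.smul (c := 8) (by norm_num)).congr_on fun i hi j hj => ?_
    simp only [hu i hi, hu j hj, h8_2, Hk, Hs, List.getD_cons_zero, List.getD_cons_succ, ev1, evL]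
    push_cast; ring
  · refine (h.p3.smul (c := 10) (by norm_num)).congr_on fun i hi j hj => ?_
    simp only [hu i hi, hu j hj, h8_3, Hk, Hs, List.getD_cons_zero, List.getD_cons_succ, ev1, evL]
    push_cast; ring
  · refine (h.p4.smul (c := 40) (by norm_num)).congr_on fun i hi j hj => ?_
    simp only [hu i hi, hu j hj, h8_4, Hk, Hs, List.getD_cons_zero, List.getD_cons_succ, ev1, evL]
    push_cast; ring
  · refine (h.p5.smul (c := 56) (by norm_num)).congr_on fun i hi j hj => ?_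
    simp only [hu i hi, hu j hj, h8_5, Hk, Hs, List.getD_cons_zero, List.getD_cons_succ, ev1, evL]
    push_cast; ring
  · refine (h.p6.smul (c := 896) (by norm_num)).congr_on fun i hi j hj => ?_
    simp only [hu i hi, hu j hj, h8_6, Hk, Hs, List.getD_cons_zero, List.getD_cons_succ, ev1, evL]
    push_cast; ring
  · refine (h.p7.smul (c := 192) (by norm_num)).congr_on fun i hi j hj => ?_
    simp only [hu i hi, hu j hj, h8_7, Hk, Hs, List.getD_cons_zero, List.getD_cons_succ, ev1, evL]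
    push_cast; ring
  · refine (h.p8.smul (c := 3840) (by norm_num)).congr_on fun i hi j hj => ?_
    simp only [hu i hi, hu j hj, h8_8, Hk, Hs, List.getD_cons_zero, List.getD_cons_succ, ev1, evL]
    push_cast; ring
  · refine (PK.zero S).congr fun i j => ?_
    simp [Hk, Hs, ev1, evL]

theorem Fp_nonpos {x y t : ℝ} (hx : x ^ 2 ≤ 1) (hy : y ^ 2 ≤ 1) (ht : -1 ≤ t)
    (ht' : 128 * t ≤ 64 - 8 * x - 8 * y - x * y) : ev3 x y t Fp ≤ 0 := by
  have h := ev3_zero x y t _ cert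
  simp only [ev3_add, ev3_mul, ev3_cN] at h
  have e1 : ev3 x y t mLo = 1 + t := by simp [ev3, ev2, ev1, evL, mLo]
  have e2 : ev3 x y t mHi = 64 - 8 * x - 8 * y - x * y - 128 * t := by
    simp [ev3, ev2, ev1, evL, mHi]; ring
  have e3 : ev3 x y t mX = 1 - x ^ 2 := by simp [ev3, ev2, ev1, evL, mX]; ring
  have e4 : ev3 x y t mY = 1 - y ^ 2 := by simp [ev3, ev2, ev1, evL, mY]; ring
  rw [e1, e2, e3, e4] at h
  have p1 := sos_nonneg x y t bigL sq_1
  have p2 := mul_nonneg (mul_nonneg (by linarith : 0 ≤ 1 + t)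
    (by linarith : 0 ≤ 64 - 8 * x - 8 * y - x * y - 128 * t)) (sos_nonneg x y t bigL sq_lh)
  have p3 := mul_nonneg (by linarith : 0 ≤ 1 - x ^ 2) (sos_nonneg x y t bigL sq_bx)
  have p4 := mul_nonneg (by linarith : 0 ≤ 1 - y ^ 2) (sos_nonneg x y t bigL sq_by)
  have p0 : (0 : ℝ) < ((bigL / bigF : ℕ) : ℝ) := Nat.cast_pos.mpr bigL_pos
  by_contra hc
  have := mul_pos p0 (not_le.mp hc)
  linarith

theorem diag_eq (x : ℝ) :
    480 * (1572864 * (w0 : ℝ)) * ev1 x phi0 - ev3 x x 1 Fp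
      = 480 * (1572864 ^ 2 * (w0 : ℝ)) * gg x := by
  have h := ev1_zero x _ certD
  rw [ev1_add, ← ev3_diag] at h
  have : ev3 x x 1 Fp = - ev1 x negD := by linarith
  rw [this]
  simp only [ev1, evL, negD, phi0, w0, gg]
  push_cast
  ring

theorem w0_pos : (0 : ℝ) < w0 := by
  have : 0 < w0 := by decide +kernel
  exact_mod_cast this

theorem local_gg (u : ι → EuclideanSpace ℝ (Fin 8)) (x : ι → ℝ)
    (hu : ∀ i ∈ S, ‖u i‖ = 1) (hx : ∀ i ∈ S, x i ^ 2 ≤ 1)
    (ht : ∀ i ∈ S, ∀ j ∈ S, i ≠ j →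
      128 * inner ℝ (u i) (u j) ≤ 64 - 8 * x i - 8 * x j - x i * x j) :
    ∑ i ∈ S, gg (x i) ≤ 120 := by
  classical
  have hu' : ∀ i ∈ S, inner ℝ (u i) (u i) = (1 : ℝ) := fun i hi => by
    rw [real_inner_self_eq_norm_sq, hu i hi]; norm_num
  have h1 := (kerP_pk Hk x (fun i j => inner ℝ (u i) (u j)) (pk_H u hu') terms).sum_nonneg
  have h2 : ∑ i ∈ S, ∑ j ∈ S, ev3 (x i) (x j) (inner ℝ (u i) (u j)) Fp
      = w0 * (∑ i ∈ S, ev1 (x i) phi0) ^ 2
        + ∑ i ∈ S, ∑ j ∈ S, ev3 (x i) (x j) (inner ℝ (u i) (u j)) (kerP Hk terms) := by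
    simp only [Fp, ev3_add, ev3_mul, ev3_cN, ev3_cX, ev3_cY, sum_add_distrib]
    rw [sq, sum_mul_sum, mul_sum]
    simp only [mul_sum]
  have h3 : ∑ i ∈ S, ∑ j ∈ S, ev3 (x i) (x j) (inner ℝ (u i) (u j)) Fp
      ≤ ∑ i ∈ S, ev3 (x i) (x i) 1 Fp := by
    refine sum_le_sum fun i hi => ?_
    rw [← add_sum_erase S _ hi, hu' i hi]
    have : ∑ j ∈ S.erase i, ev3 (x i) (x j) (inner ℝ (u i) (u j)) Fp ≤ 0 := by
      refine sum_nonpos fun j hj => ?_
      have hj' := mem_of_mem_erase hj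
      refine Fp_nonpos (hx i hi) (hx j hj') ?_ (ht i hi j hj' (ne_of_mem_erase hj).symm)
      have := abs_real_inner_le_norm (u i) (u j)
      rw [hu i hi, hu j hj'] at this
      linarith [(abs_le.mp this).1]
    linarith
  have h4 : ∑ i ∈ S, 480 * (1572864 ^ 2 * (w0 : ℝ)) * gg (x i)
      = 480 * (1572864 * (w0 : ℝ)) * ∑ i ∈ S, ev1 (x i) phi0 - ∑ i ∈ S, ev3 (x i) (x i) 1 Fp := by
    rw [mul_sum, ← sum_sub_distrib]
    exact sum_congr rfl fun i _ => (diag_eq (x i)).symm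
  rw [← mul_sum] at h4
  have hw := w0_pos
  generalize (w0 : ℝ) = w at *
  generalize ∑ i ∈ S, ev1 (x i) phi0 = A at *
  generalize ∑ i ∈ S, gg (x i) = B at *
  have h5 : 0 ≤ w * (A - 240 * 1572864) ^ 2 := by positivity
  have h6 : w * B ≤ w * 120 := by nlinarith
  exact le_of_mul_le_mul_left h6 hw

theorem gg_zero : gg 0 = 1 / 2 := by norm_num [gg]

theorem gg_one : 1 ≤ gg 1 := by norm_num [gg]

theorem gg_symm {x : ℝ} (hx : x ^ 2 ≤ 1) : 1 ≤ gg x + gg (-x) := by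
  have h : 0 ≤ x ^ 2 * (1 - x ^ 2) := mul_nonneg (sq_nonneg x) (by linarith)
  simp only [gg]
  nlinarith [sq_nonneg x]

/-- the weight of a neighbour with relative radius `ρ` -/
noncomputable def wt (ρ : ℝ) : ℝ := if ρ < 7 / 16 then 0 else gg (min (16 * ρ - 8) 1)

theorem wt_half : wt (1 / 2) = 1 / 2 := by
  rw [wt, if_neg (by norm_num)]
  have : min (16 * (1 / 2 : ℝ) - 8) 1 = 0 := by norm_num
  rw [this, gg_zero]

theorem wt_symm (ρ : ℝ) : 1 ≤ wt ρ + wt (1 - ρ) := by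
  unfold wt
  by_cases h1 : ρ < 7 / 16
  · rw [if_pos h1, if_neg (by linarith), min_eq_right (by linarith)]
    linarith [gg_one]
  · by_cases h2 : 1 - ρ < 7 / 16
    · rw [if_neg h1, if_pos h2, min_eq_right (by linarith)]
      linarith [gg_one]
    · rw [if_neg h1, if_neg h2, min_eq_left (by linarith), min_eq_left (by linarith)]
      have e : 16 * (1 - ρ) - 8 = -(16 * ρ - 8) := by ring
      rw [e]
      exact gg_symm (by nlinarith)

theorem local_wt (u : ι → EuclideanSpace ℝ (Fin 8)) (ρ : ι → ℝ)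
    (hu : ∀ i ∈ S, ‖u i‖ = 1)
    (ht : ∀ i ∈ S, ∀ j ∈ S, i ≠ j → inner ℝ (u i) (u j) ≤ 1 - 2 * ρ i * ρ j) :
    ∑ i ∈ S, wt (ρ i) ≤ 120 := by
  classical
  have e : ∑ i ∈ S, wt (ρ i)
      = ∑ i ∈ S.filter (fun i => ¬ ρ i < 7 / 16), gg (min (16 * ρ i - 8) 1) := by
    rw [sum_filter]
    refine sum_congr rfl fun i _ => ?_
    unfold wt
    split_ifs <;> rfl
  rw [e]
  have hb : ∀ i ∈ S.filter (fun i => ¬ ρ i < 7 / 16),
      -1 ≤ min (16 * ρ i - 8) 1 ∧ min (16 * ρ i - 8) 1 ≤ 1 ∧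
        min (16 * ρ i - 8) 1 ≤ 16 * ρ i - 8 := fun i hi => by
    have := (mem_filter.mp hi).2
    exact ⟨le_min (by linarith) (by norm_num), min_le_right _ _, min_le_left _ _⟩
  refine local_gg u (fun i => min (16 * ρ i - 8) 1) (fun i hi => hu i (mem_filter.mp hi).1)
    (fun i hi => ?_) fun i hi j hj hij => ?_
  · obtain ⟨a, b, _⟩ := hb i hi
    nlinarith
  · obtain ⟨a, _, c⟩ := hb i hi
    obtain ⟨a', _, c'⟩ := hb j hj
    have := ht i (mem_filter.mp hi).1 j (mem_filter.mp hj).1 hij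
    generalize min (16 * ρ i - 8) 1 = x at *
    generalize min (16 * ρ j - 8) 1 = y at *
    have h1 : (x + 8) * (y + 8) ≤ (16 * ρ i) * (16 * ρ j) :=
      mul_le_mul (by linarith) (by linarith) (by linarith) (by linarith)
    nlinarith

end Pool.Agent.Lib.MP_e6e291_co
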