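import Mathlib

namespace Pool.Agent.Lib.MP_e6e291_co

variable {ι : Type*} {S : Finset ι}

/-- positive semidefinite kernel on a finite set -/
def PK (S : Finset ι) (K : ι → ι → ℝ) : Prop :=
  ∀ w : ι → ℝ, 0 ≤ ∑ i ∈ S, ∑ j ∈ S, w i * w j * K i j

theorem PK.add {K L : ι → ι → ℝ} (h : PK S K) (h' : PK S L) :
    PK S fun i j => K i j + L i j := by
  intro w
  have := add_nonneg (h w) (h' w)
  simpa only [mul_add, Finset.sum_add_distrib] using this

theorem PK.congr {K L : ι → ι → ℝ} (h : PK S K) (e : ∀ i j, K i j = L i j) : PK S L := by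
  have : K = L := by funext i j; exact e i j
  exact this ▸ h

theorem PK.conj {K : ι → ι → ℝ} (h : PK S K) {c : ℝ} (hc : 0 ≤ c) (φ : ι → ℝ) :
    PK S fun i j => c * (φ i * φ j * K i j) := by
  intro w
  have := mul_nonneg hc (h fun i => w i * φ i)
  rw [Finset.mul_sum] at this
  refine this.trans (le_of_eq ?_)
  refine Finset.sum_congr rfl fun i _ => ?_
  rw [Finset.mul_sum]
  refine Finset.sum_congr rfl fun j _ => ?_
  ring

theorem PK.one (S : Finset ι) : PK S fun _ _ => 1 := by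
  intro w
  have : ∑ i ∈ S, ∑ j ∈ S, w i * w j * 1 = (∑ i ∈ S, w i) ^ 2 := by
    rw [sq, Finset.sum_mul_sum]; simp
  rw [this]; positivity

theorem PK.zero (S : Finset ι) : PK S fun _ _ => 0 := by
  intro w; simp

theorem PK.rank1 (S : Finset ι) {c : ℝ} (hc : 0 ≤ c) (φ : ι → ℝ) :
    PK S fun i j => c * (φ i * φ j) :=
  ((PK.one S).conj hc φ).congr fun i j => by ring

theorem PK.sum_nonneg {K : ι → ι → ℝ} (h : PK S K) : 0 ≤ ∑ i ∈ S, ∑ j ∈ S, K i j := by
  simpa using h fun _ => 1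

end Pool.Agent.Lib.MP_e6e291_co
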