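import Pool.Agent.Lib.MP_e6e291_co.PK

namespace Pool.Agent.Lib.MP_e6e291_co

/-! Dense integer polynomials in three variables, evaluated in the reals. -/

def addL {α : Type} (f : α → α → α) : List α → List α → List α
  | [], q => q
  | a :: p, [] => a :: p
  | a :: p, b :: q => f a b :: addL f p q

def mulL {α : Type} (ad mu : α → α → α) (z : α) : List α → List α → List α
  | [], _ => []
  | a :: p, q => addL ad (q.map (mu a)) (z :: mulL ad mu z p q)

def evL {α : Type} (ev : α → ℝ) (x : ℝ) : List α → ℝ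
  | [] => 0
  | a :: p => ev a + x * evL ev x p

theorem evL_add {α : Type} {f : α → α → α} {ev : α → ℝ} (x : ℝ)
    (h : ∀ a b, ev (f a b) = ev a + ev b) :
    ∀ p q, evL ev x (addL f p q) = evL ev x p + evL ev x q
  | [], q => by simp [addL, evL]
  | a :: p, [] => by simp [addL, evL]
  | a :: p, b :: q => by simp only [addL, evL, h, evL_add x h p q]; ring

theorem evL_map {α : Type} {mu : α → α → α} {ev : α → ℝ} (x : ℝ)
    (h : ∀ a b, ev (mu a b) = ev a * ev b) (a : α) :
    ∀ q, evL ev x (q.map (mu a)) = ev a * evL ev x q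
  | [] => by simp [evL]
  | b :: q => by simp only [List.map_cons, evL, h, evL_map x h a q]; ring

theorem evL_mul {α : Type} {ad mu : α → α → α} {z : α} {ev : α → ℝ} (x : ℝ)
    (ha : ∀ a b, ev (ad a b) = ev a + ev b) (hm : ∀ a b, ev (mu a b) = ev a * ev b)
    (hz : ev z = 0) :
    ∀ p q, evL ev x (mulL ad mu z p q) = evL ev x p * evL ev x q
  | [], q => by simp [mulL, evL]
  | a :: p, q => by
    simp only [mulL, evL, evL_add x ha, evL_map x hm, evL_mul x ha hm hz p q, hz]; ring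

theorem evL_zero {α : Type} {ev : α → ℝ} {iz : α → Bool} (x : ℝ)
    (h : ∀ a, iz a = true → ev a = 0) : ∀ p : List α, p.all iz = true → evL ev x p = 0
  | [], _ => rfl
  | a :: p, hp => by
    simp only [List.all_cons, Bool.and_eq_true] at hp
    simp only [evL, h a hp.1, evL_zero x h p hp.2]; ring

abbrev P1 := List ℤ
abbrev P2 := List P1
abbrev P3 := List P2

def add1 : P1 → P1 → P1 := addL Int.add
def mul1 : P1 → P1 → P1 := mulL Int.add Int.mul 0
def add2 : P2 → P2 → P2 := addL add1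
def mul2 : P2 → P2 → P2 := mulL add1 mul1 []
def add3 : P3 → P3 → P3 := addL add2
def mul3 : P3 → P3 → P3 := mulL add2 mul2 []
def isZ1 (p : P1) : Bool := p.all fun a => decide (a = 0)
def isZ2 (p : P2) : Bool := p.all isZ1
def isZ3 (p : P3) : Bool := p.all isZ2

def ev1 (t : ℝ) : P1 → ℝ := evL (fun a : ℤ => (a : ℝ)) t
def ev2 (y t : ℝ) : P2 → ℝ := evL (ev1 t) y
def ev3 (x y t : ℝ) : P3 → ℝ := evL (ev2 y t) x

theorem ev1_add (t : ℝ) (p q : P1) : ev1 t (add1 p q) = ev1 t p + ev1 t q :=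
  evL_add t (fun a b => Int.cast_add a b) p q
theorem ev1_mul (t : ℝ) (p q : P1) : ev1 t (mul1 p q) = ev1 t p * ev1 t q :=
  evL_mul t (fun a b => Int.cast_add a b) (fun a b => Int.cast_mul a b) Int.cast_zero p q
theorem ev2_add (y t : ℝ) (p q : P2) : ev2 y t (add2 p q) = ev2 y t p + ev2 y t q :=
  evL_add y (ev1_add t) p q
theorem ev2_mul (y t : ℝ) (p q : P2) : ev2 y t (mul2 p q) = ev2 y t p * ev2 y t q :=
  evL_mul y (ev1_add t) (ev1_mul t) rfl p q
theorem ev3_add (x y t : ℝ) (p q : P3) : ev3 x y t (add3 p q) = ev3 x y t p + ev3 x y t q :=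
  evL_add x (ev2_add y t) p q
theorem ev3_mul (x y t : ℝ) (p q : P3) : ev3 x y t (mul3 p q) = ev3 x y t p * ev3 x y t q :=
  evL_mul x (ev2_add y t) (ev2_mul y t) rfl p q
theorem ev1_zero (t : ℝ) (p : P1) (h : isZ1 p = true) : ev1 t p = 0 :=
  evL_zero t (fun a ha => by simpa using ha) p h
theorem ev2_zero (y t : ℝ) (p : P2) (h : isZ2 p = true) : ev2 y t p = 0 :=
  evL_zero y (ev1_zero t) p h
theorem ev3_zero (x y t : ℝ) (p : P3) (h : isZ3 p = true) : ev3 x y t p = 0 :=
  evL_zero x (ev2_zero y t) p h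

def cN (n : ℕ) : P3 := [[[Int.ofNat n]]]
def cT (p : P1) : P3 := [[p]]
def cY (p : P1) : P3 := [p.map fun a => [a]]
def cX (p : P1) : P3 := p.map fun a => [[a]]

theorem ev3_cN (x y t : ℝ) (n : ℕ) : ev3 x y t (cN n) = n := by
  simp [ev3, ev2, ev1, cN, evL]
theorem ev3_cT (x y t : ℝ) (p : P1) : ev3 x y t (cT p) = ev1 t p := by
  simp [ev3, ev2, cT, evL]
theorem ev3_cY (x y t : ℝ) (p : P1) : ev3 x y t (cY p) = ev1 y p := by
  have : ∀ p : P1, evL (ev1 t) y (p.map fun a => [a]) = ev1 y p := by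
    intro p
    induction p with
    | nil => rfl
    | cons a p ih =>
      simp only [List.map_cons, evL, ih]
      simp [ev1, evL]
  simp [ev3, ev2, cY, evL, this]
theorem ev3_cX (x y t : ℝ) (p : P1) : ev3 x y t (cX p) = ev1 x p := by
  induction p with
  | nil => rfl
  | cons a p ih =>
    simp only [ev3, cX] at ih
    simp only [ev3, cX, List.map_cons, evL, ih]
    simp [ev2, ev1, evL]

/-- weighted sum of squares, weights `a * (L / b)` -/
def sos (L : ℕ) : List (ℕ × ℕ × P3) → P3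
  | [] => []
  | c :: l => add3 (mul3 (cN (c.1 * (L / c.2.1))) (mul3 c.2.2 c.2.2)) (sos L l)

theorem sos_nonneg (x y t : ℝ) (L : ℕ) : ∀ l, 0 ≤ ev3 x y t (sos L l)
  | [] => le_rfl
  | c :: l => by
    simp only [sos, ev3_add, ev3_mul, ev3_cN]
    exact add_nonneg (mul_nonneg (Nat.cast_nonneg _) (mul_self_nonneg _)) (sos_nonneg x y t L l)

/-- sum of terms `w * φ x * φ y * H t` -/
def kerP (H : ℕ → P1) : List (ℕ × P1 × ℕ) → P3
  | [] => []
  | c :: l => add3 (mul3 (cN c.1) (mul3 (mul3 (cX c.2.1) (cY c.2.1)) (cT (H c.2.2)))) (kerP H l)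

theorem kerP_pk {ι : Type*} {S : Finset ι} (H : ℕ → P1) (x : ι → ℝ) (t : ι → ι → ℝ)
    (hH : ∀ k, PK S fun i j => ev1 (t i j) (H k)) :
    ∀ l, PK S fun i j => ev3 (x i) (x j) (t i j) (kerP H l)
  | [] => PK.zero S
  | c :: l => by
    refine (((hH c.2.2).conj (Nat.cast_nonneg c.1) fun i => ev1 (x i) c.2.1).add
      (kerP_pk H x t hH l)).congr ?_
    intro i j
    simp only [kerP, ev3_add, ev3_mul, ev3_cN, ev3_cX, ev3_cY, ev3_cT]

/-- restriction to `y = x`, `t = 1` -/
def diag3 : P3 → P1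
  | [] => []
  | q :: r => add1 (q.map List.sum) (0 :: diag3 r)

theorem ev1_one : ∀ p : P1, ev1 1 p = (p.sum : ℤ)
  | [] => by simp [ev1, evL]
  | a :: p => by
    have := ev1_one p
    simp only [ev1] at this
    simp [ev1, evL, this]

theorem ev2_one (y : ℝ) : ∀ q : P2, ev2 y 1 q = ev1 y (q.map List.sum)
  | [] => rfl
  | a :: q => by
    have := ev2_one y q
    simp only [ev2, ev1] at this
    simp only [ev2, ev1, evL, List.map_cons, this]
    congr 1
    exact ev1_one a

theorem ev3_diag (x : ℝ) : ∀ r : P3, ev3 x x 1 r = ev1 x (diag3 r)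
  | [] => rfl
  | q :: r => by
    have := ev3_diag x r
    simp only [ev3] at this
    simp only [diag3, ev1_add, ev3, evL, this, ev2_one]
    simp [ev1, evL]

end Pool.Agent.Lib.MP_e6e291_co
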